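import Pool.Agent.Helper243_Two.Quasi

/-!
# Abelian groups of bounded exponent with few orbits: arbitrary actions
-/

set_option autoImplicit false

namespace Pool.Agent.Helper243Two

open Finset Module

section act

variable {G Ω : Type} [CommGroup G] [Finite G] [Fintype Ω] [MulAction G Ω]

/-- The words of `C` that do not change under the elements of `F`. -/
def fixF (C : Submodule (ZMod 2) (Ω → ZMod 2)) (F : Set G) :
    Submodule (ZMod 2) (Ω → ZMod 2) where
  carrier := {c | c ∈ C ∧ ∀ g ∈ F, ∀ x, c (g • x) = c x}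
  zero_mem' := ⟨C.zero_mem, fun _ _ _ => rfl⟩
  add_mem' := fun {a b} ha hb => ⟨C.add_mem ha.1 hb.1, fun g hg x => by
    rw [Pi.add_apply, Pi.add_apply, ha.2 g hg, hb.2 g hg]⟩
  smul_mem' := fun r a ha => ⟨C.smul_mem r ha.1, fun g hg x => by
    rw [Pi.smul_apply, Pi.smul_apply, ha.2 g hg]⟩

variable (G) in
/-- The words of `C` that vanish on the orbit of `s`. -/
def van (C : Submodule (ZMod 2) (Ω → ZMod 2)) (s : Ω) : Submodule (ZMod 2) (Ω → ZMod 2) where
  carrier := {c | c ∈ C ∧ ∀ g : G, c (g • s) = 0}
  zero_mem' := ⟨C.zero_mem, fun _ => rfl⟩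
  add_mem' := fun {a b} ha hb => ⟨C.add_mem ha.1 hb.1, fun g => by
    rw [Pi.add_apply, ha.2 g, hb.2 g, add_zero]⟩
  smul_mem' := fun r a ha => ⟨C.smul_mem r ha.1, fun g => by
    rw [Pi.smul_apply, ha.2 g, smul_zero]⟩

omit [Finite G] in
theorem fix_codim (C N : Submodule (ZMod 2) (Ω → ZMod 2)) (F : Finset G)
    (h : ∀ g ∈ F, ∀ c ∈ C, (fun x => c (g • x) - c x) ∈ N) :
    finrank (ZMod 2) C ≤ finrank (ZMod 2) (fixF C (F : Set G)) +
      F.card * finrank (ZMod 2) N := by
  classical
  let L : C →ₗ[ZMod 2] (F → N) :=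
    { toFun := fun c g => ⟨fun x => c.1 ((g : G) • x) - c.1 x, h g g.2 c c.2⟩
      map_add' := by
        intro c d
        funext g
        apply Subtype.ext
        funext x
        show (c.1 ((g : G) • x) + d.1 ((g : G) • x)) - (c.1 x + d.1 x) =
          (c.1 ((g : G) • x) - c.1 x) + (d.1 ((g : G) • x) - d.1 x)
        ring
      map_smul' := by
        intro r c
        funext g
        apply Subtype.ext
        funext x
        show r * c.1 ((g : G) • x) - r * c.1 x = r * (c.1 ((g : G) • x) - c.1 x)
        ring }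
  have h1 := LinearMap.finrank_range_add_finrank_ker L
  have h2 : finrank (ZMod 2) (LinearMap.ker L) ≤ finrank (ZMod 2) (fixF C (F : Set G)) := by
    rw [← Submodule.finrank_map_subtype_eq C (LinearMap.ker L)]
    apply Submodule.finrank_mono
    rintro _ ⟨c, hc, rfl⟩
    refine ⟨c.2, ?_⟩
    intro g hg x
    have h3 : L c = 0 := hc
    have h4 := congrFun (congrArg Subtype.val (congrFun h3 ⟨g, hg⟩)) x
    exact sub_eq_zero.1 h4
  have h3 : finrank (ZMod 2) (LinearMap.range L) ≤ F.card * finrank (ZMod 2) N := by
    refine (Submodule.finrank_le _).trans ?_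
    rw [Module.finrank_pi_fintype, Finset.sum_const, Finset.card_univ, Fintype.card_coe,
      smul_eq_mul]
  omega

omit [Finite G] in
theorem fixed_dim (M : Submodule (ZMod 2) (Ω → ZMod 2)) (s : Ω) (F : Finset G)
    (hinj : Set.InjOn (fun g : G => g • s) (F : Set G))
    (hM : ∀ f ∈ M, ∀ g ∈ F, ∀ x, f (g • x) = f x) :
    F.card * finrank (ZMod 2) M ≤ F.card * finrank (ZMod 2) (van G M s) + Fintype.card Ω := by
  classical
  let H : Subgroup G := Subgroup.closure (F : Set G)
  have hH : ∀ f ∈ M, ∀ h ∈ H, ∀ x, f (h • x) = f x := by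
    intro f hf h hh
    induction hh using Subgroup.closure_induction with
    | mem g hg => exact hM f hf g hg
    | one => intro x; rw [one_smul]
    | mul a b _ _ iha ihb => intro x; rw [mul_smul, iha, ihb]
    | inv a _ iha =>
      intro x
      have := iha (a⁻¹ • x)
      rw [smul_inv_smul] at this
      exact this.symm
  let O : Finset Ω := univ.filter fun x => x ∈ MulAction.orbit G s
  let cl : Ω → MulAction.orbitRel.Quotient H Ω := fun x => Quotient.mk'' x
  have hcl : ∀ x y, cl x = cl y → ∃ h : H, h • y = x := fun x y hxy =>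
    MulAction.orbitRel_apply.1 (Quotient.exact hxy)
  let Y : Finset (MulAction.orbitRel.Quotient H Ω) := O.image cl
  let R : M →ₗ[ZMod 2] (Y → ZMod 2) :=
    { toFun := fun f q => f.1 (Quotient.out (q : MulAction.orbitRel.Quotient H Ω))
      map_add' := fun f g => rfl
      map_smul' := fun r f => rfl }
  have h1 := LinearMap.finrank_range_add_finrank_ker R
  have h2 : finrank (ZMod 2) (LinearMap.ker R) ≤ finrank (ZMod 2) (van G M s) := by
    rw [← Submodule.finrank_map_subtype_eq M (LinearMap.ker R)]
    apply Submodule.finrank_mono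
    rintro _ ⟨f, hf, rfl⟩
    refine ⟨f.2, ?_⟩
    intro g
    have hmem : cl (g • s) ∈ Y := by
      refine Finset.mem_image_of_mem _ ?_
      rw [Finset.mem_filter]
      exact ⟨Finset.mem_univ _, g, rfl⟩
    have h3 : R f = 0 := hf
    have h4 : f.1 (Quotient.out (cl (g • s))) = 0 := congrFun h3 ⟨_, hmem⟩
    obtain ⟨h, hh⟩ := hcl (Quotient.out (cl (g • s))) (g • s) (Quotient.out_eq _)
    have h5 := hH f f.2 h h.2 (g • s)
    have h6 : (h : G) • (g • s) = Quotient.out (cl (g • s)) := hh
    rw [h6, h4] at h5
    exact h5.symm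
  have h3 : finrank (ZMod 2) (LinearMap.range R) ≤ Y.card := by
    refine (Submodule.finrank_le _).trans ?_
    rw [Module.finrank_fintype_fun_eq_card, Fintype.card_coe]
  have h4 : Y.card * F.card ≤ Fintype.card Ω := by
    have hdis : ∀ q ∈ Y, ∀ q' ∈ Y, q ≠ q' →
        Disjoint (univ.filter fun x => cl x = q) (univ.filter fun x => cl x = q') := by
      intro q _ q' _ hne
      rw [Finset.disjoint_left]
      intro x hx hx'
      rw [Finset.mem_filter] at hx hx'
      exact hne (hx.2.symm.trans hx'.2)
    calc Y.card * F.card = ∑ q ∈ Y, F.card := by rw [Finset.sum_const, smul_eq_mul]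
      _ ≤ ∑ q ∈ Y, (univ.filter fun x => cl x = q).card := by
          refine Finset.sum_le_sum fun q hq => ?_
          obtain ⟨x, hx, rfl⟩ := Finset.mem_image.1 hq
          obtain ⟨a, rfl⟩ : ∃ a : G, a • s = x := (Finset.mem_filter.1 hx).2
          refine Finset.card_le_card_of_injOn (fun g : G => g • (a • s)) ?_ ?_
          · intro g hg
            have hgH : g ∈ H := Subgroup.subset_closure hg
            simp only [Finset.coe_filter, Finset.mem_univ, true_and, Set.mem_setOf_eq]
            apply Quotient.sound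
            exact ⟨⟨g, hgH⟩, rfl⟩
          · intro g hg g' hg' heq
            apply hinj hg hg'
            simp only at heq ⊢
            rw [smul_comm g a s, smul_comm g' a s] at heq
            exact MulAction.injective a heq
      _ = (Y.biUnion fun q => univ.filter fun x => cl x = q).card :=
          (Finset.card_biUnion hdis).symm
      _ ≤ Fintype.card Ω := Finset.card_le_univ _
  calc F.card * finrank (ZMod 2) M
      ≤ F.card * (Y.card + finrank (ZMod 2) (van G M s)) := Nat.mul_le_mul_left _ (by omega)
    _ = F.card * finrank (ZMod 2) (van G M s) + Y.card * F.card := by ring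
    _ ≤ _ := Nat.add_le_add_left h4 _

end act

end Pool.Agent.Helper243Two
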