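import Pool.Agent.Helper243_Two.CaseB

/-!
# Codes with an abelian group of automorphisms of bounded exponent have many orbits
-/

set_option autoImplicit false

namespace Pool.Agent.Helper243Two

open Finset Module Pool.Agent.Helper243Abel

theorem finrank_sup_le {V ι : Type} [AddCommGroup V] [Module (ZMod 2) V]
    [Module.Finite (ZMod 2) V] (S : Finset ι) (N : ι → Submodule (ZMod 2) V) :
    finrank (ZMod 2) (S.sup N : Submodule (ZMod 2) V) ≤ ∑ i ∈ S, finrank (ZMod 2) (N i) := by
  classical
  induction S using Finset.induction_on with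
  | empty => simp
  | insert a S ha ih =>
    rw [Finset.sup_insert, Finset.sum_insert ha]
    exact (Submodule.finrank_add_le_finrank_add_finrank _ _).trans (Nat.add_le_add_left ih _)

/-- Finitely many elements represent the action of `K` on a finite set of points. -/
theorem exists_repr {G Ω : Type} [Group G] [Finite G] [Fintype Ω] [MulAction G Ω]
    (K : Subgroup G) (S : Finset Ω) (b : ℕ) (hb : ∀ s ∈ S, Nat.card (MulAction.orbit K s) ≤ b) :
    ∃ F : Finset G, F.card ≤ b ^ S.card ∧ (∀ g ∈ F, g ∈ K) ∧
      ∀ g ∈ K, ∃ f ∈ F, ∀ s ∈ S, g • s = f • s := by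
  classical
  let Φ : K → (S → Ω) := fun k s => (k : G) • (s : Ω)
  have hfin : Fintype K := Fintype.ofFinite _
  let T : Finset (S → Ω) := univ.image Φ
  have hT : T.card ≤ b ^ S.card := by
    have h1 : T ⊆ Fintype.piFinset fun s : S => univ.filter fun x => x ∈ MulAction.orbit K (s : Ω) := by
      intro t ht
      obtain ⟨k, _, rfl⟩ := Finset.mem_image.1 ht
      rw [Fintype.mem_piFinset]
      intro s
      rw [Finset.mem_filter]
      exact ⟨Finset.mem_univ _, k, rfl⟩
    refine (Finset.card_le_card h1).trans ?_
    rw [Fintype.card_piFinset]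
    calc ∏ s : S, (univ.filter fun x => x ∈ MulAction.orbit K (s : Ω)).card
        ≤ ∏ s : S, b := by
          refine Finset.prod_le_prod' fun s _ => ?_
          have h2 := hb s s.2
          have hfin' : Fintype (MulAction.orbit K (s : Ω)) := Fintype.ofFinite _
          rw [Nat.card_eq_fintype_card, ← Set.toFinset_card] at h2
          refine le_trans (le_of_eq ?_) h2
          congr 1
          ext x
          simp
      _ = b ^ S.card := by rw [Finset.prod_const, Finset.card_univ, Fintype.card_coe]
  have hsec : ∀ t : T, ∃ k : K, Φ k = t := by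
    intro t
    obtain ⟨k, _, hk⟩ := Finset.mem_image.1 t.2
    exact ⟨k, hk⟩
  choose k hk using hsec
  refine ⟨univ.image fun t : T => (k t : G), ?_, ?_, ?_⟩
  · refine Finset.card_image_le.trans ?_
    rw [Finset.card_univ, Fintype.card_coe]
    exact hT
  · intro g hg
    obtain ⟨t, _, rfl⟩ := Finset.mem_image.1 hg
    exact (k t).2
  · intro g hg
    let t : T := ⟨Φ ⟨g, hg⟩, Finset.mem_image_of_mem _ (Finset.mem_univ _)⟩
    refine ⟨k t, Finset.mem_image_of_mem _ (Finset.mem_univ t), ?_⟩
    intro s hs
    have h1 := congrFun (hk t) ⟨s, hs⟩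
    exact h1.symm

/-- Many points of an orbit are reached by distinct elements. -/
theorem exists_distinct {G Ω : Type} [Group G] [Fintype Ω] [MulAction G Ω]
    (K : Subgroup G) (s : Ω) (b : ℕ) (hb : b < Nat.card (MulAction.orbit K s)) :
    ∃ F : Finset G, F.card = b ∧ (∀ g ∈ F, g ∈ K) ∧ Set.InjOn (fun g : G => g • s) (F : Set G) := by
  classical
  have hfin : Fintype (MulAction.orbit K s) := Fintype.ofFinite _
  have h1 : b ≤ (MulAction.orbit K s).toFinset.card := by
    rw [Set.toFinset_card, ← Nat.card_eq_fintype_card]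
    exact hb.le
  obtain ⟨t, ht, htb⟩ := Finset.exists_subset_card_eq h1
  have hsec : ∀ y : t, ∃ k : K, k • s = (y : Ω) := by
    intro y
    have := ht y.2
    rw [Set.mem_toFinset] at this
    exact this
  choose k hk using hsec
  have hinj : Function.Injective fun y : t => (k y : G) := by
    intro y y' h
    have h2 : (k y : G) • s = (k y' : G) • s := by
      simp only at h
      rw [h]
    apply Subtype.ext
    rw [← hk y, ← hk y']
    exact h2
  refine ⟨univ.image fun y : t => (k y : G), ?_, ?_, ?_⟩
  · rw [Finset.card_image_of_injective _ hinj, Finset.card_univ, Fintype.card_coe, htb]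
  · intro g hg
    obtain ⟨y, _, rfl⟩ := Finset.mem_image.1 hg
    exact (k y).2
  · intro g hg g' hg' h
    obtain ⟨y, _, rfl⟩ := Finset.mem_image.1 hg
    obtain ⟨y', _, rfl⟩ := Finset.mem_image.1 hg'
    have h2 : (y : Ω) = y' := by
      rw [← hk y, ← hk y']
      exact h
    rw [Subtype.ext h2]

theorem any_orbits (e : ℕ) (he : 0 < e) : ∀ (ℓ : ℕ) (ρ δ : ℝ), 0 < ρ → 0 < δ → ∃ n₀ : ℕ,
    ∀ (G Ω : Type) [CommGroup G] [Finite G] [Fintype Ω] [MulAction G Ω],
      (∀ g : G, g ^ e = 1) → ∀ S : Finset Ω, S.card ≤ ℓ →
      (∀ s ∈ S, ∀ t ∈ S, ∀ g : G, g • s = t → s = t) →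
      ∀ C : Submodule (ZMod 2) (Ω → ZMod 2),
      (∀ g : G, ∀ c ∈ C, (fun x => c (g • x)) ∈ C) →
      (∀ c ∈ C, ∀ x, (∀ s ∈ S, x ∉ MulAction.orbit G s) → c x = 0) →
      n₀ ≤ Fintype.card Ω → ρ * Fintype.card Ω ≤ finrank (ZMod 2) C →
      ∃ f ∈ C, f ≠ 0 ∧ (hammingNorm f : ℝ) ≤ δ * Fintype.card Ω := by
  classical
  intro ℓ
  induction ℓ with
  | zero =>
    intro ρ δ hρ hδ
    refine ⟨1, ?_⟩
    intro G Ω _ _ _ _ hexp S hS hdis C hC hsupp hn hdim
    exfalso
    have hS0 : S = ∅ := Finset.card_eq_zero.1 (Nat.le_zero.1 hS)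
    subst hS0
    have hC0 : C = ⊥ := by
      rw [Submodule.eq_bot_iff]
      intro c hc
      funext x
      exact hsupp c hc x (by simp)
    rw [hC0, finrank_bot, Nat.cast_zero] at hdim
    have : (1 : ℝ) ≤ Fintype.card Ω := by exact_mod_cast hn
    nlinarith
  | succ ℓ ih =>
    intro ρ δ hρ hδ
    obtain ⟨b, hb⟩ := exists_nat_ge (4 / ρ)
    have hb0 : (0 : ℝ) < b := lt_of_lt_of_le (by positivity) hb
    have hbρ : 1 ≤ b * (ρ / 4) := by
      have h1 : 4 / ρ * (ρ / 4) = 1 := by field_simp
      calc (1 : ℝ) = 4 / ρ * (ρ / 4) := h1.symm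
        _ ≤ b * (ρ / 4) := mul_le_mul_of_nonneg_right hb (by positivity)
    have hb1 : 1 ≤ b := by exact_mod_cast hb0
    let L : ℝ := (ℓ + 1 : ℕ)
    have hL : (0 : ℝ) ≤ L := Nat.cast_nonneg _
    let η : ℝ := ρ / (4 * (1 + b * L + (b : ℝ) ^ (ℓ + 1) * L))
    have hden : 0 < 1 + b * L + (b : ℝ) ^ (ℓ + 1) * L := by positivity
    have hη : 0 < η := by positivity
    have hη1 : η * (1 + b * L + (b : ℝ) ^ (ℓ + 1) * L) = ρ / 4 := by
      simp only [η]
      field_simp
    obtain ⟨nI, hI⟩ := ih η δ hη hδ
    obtain ⟨n₁, hq⟩ := quasi e (ℓ + 1) he (ρ / 2) (δ / b) (by positivity) (by positivity)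
    obtain ⟨n₂, hn₂⟩ := exists_nat_ge (n₁ / (ρ / 2))
    refine ⟨max (max nI n₂) 1, ?_⟩
    intro G Ω _ _ _ _ hexp S hS hdis C hC hsupp hn hdim
    have hnI : nI ≤ Fintype.card Ω := le_trans (le_trans (le_max_left _ _) (le_max_left _ _)) hn
    have hn2 : n₂ ≤ Fintype.card Ω := le_trans (le_trans (le_max_right _ _) (le_max_left _ _)) hn
    have hn1 : 1 ≤ Fintype.card Ω := le_trans (le_max_right _ _) hn
    have hΩ : (1 : ℝ) ≤ Fintype.card Ω := by exact_mod_cast hn1
    have hΩ0 : (0 : ℝ) < Fintype.card Ω := by linarith
    by_cases hbig : ∃ s ∈ S, η * Fintype.card Ω ≤ finrank (ZMod 2) (van G C s)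
    · -- induction
      obtain ⟨s, hs, hbig⟩ := hbig
      obtain ⟨f, hf, hf0, hw⟩ := hI G Ω hexp (S.erase s)
        (by rw [Finset.card_erase_of_mem hs]; omega)
        (fun t ht t' ht' => hdis t (Finset.mem_of_mem_erase ht) t' (Finset.mem_of_mem_erase ht'))
        (van G C s)
        (by
          intro g c hc
          refine ⟨hC g c hc.1, ?_⟩
          intro h
          show c (g • (h • s)) = 0
          rw [← mul_smul]
          exact hc.2 _)
        (by
          intro c hc x hx
          by_cases hxs : x ∈ MulAction.orbit G s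
          · obtain ⟨g, rfl⟩ := hxs
            exact hc.2 g
          · refine hsupp c hc.1 x fun t ht => ?_
            by_cases hts : t = s
            · rw [hts]; exact hxs
            · exact hx t (Finset.mem_erase.2 ⟨hts, ht⟩))
        hnI hbig
      exact ⟨f, hf.1, hf0, hw⟩
    · push Not at hbig
      -- the words that vanish on some orbit span a small space
      let N : Submodule (ZMod 2) (Ω → ZMod 2) := S.sup fun s => van G C s
      have hNdim : (finrank (ZMod 2) N : ℝ) ≤ L * (η * Fintype.card Ω) := by
        have h1 : (finrank (ZMod 2) N : ℝ) ≤ ∑ s ∈ S, (finrank (ZMod 2) (van G C s) : ℝ) := by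
          exact_mod_cast finrank_sup_le S fun s => van G C s
        refine h1.trans ?_
        calc ∑ s ∈ S, (finrank (ZMod 2) (van G C s) : ℝ)
            ≤ ∑ s ∈ S, η * (Fintype.card Ω : ℝ) :=
              Finset.sum_le_sum fun s hs => (hbig s hs).le
          _ = S.card * (η * Fintype.card Ω) := by rw [Finset.sum_const, nsmul_eq_mul]
          _ ≤ L * (η * Fintype.card Ω) := by
              refine mul_le_mul_of_nonneg_right ?_ (by positivity)
              show (S.card : ℝ) ≤ (ℓ + 1 : ℕ)
              exact_mod_cast hS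
      have hNinv : ∀ g : G, ∀ c ∈ N, (fun x => c (g • x)) ∈ N := by
        intro g c hc
        let A : (Ω → ZMod 2) →ₗ[ZMod 2] (Ω → ZMod 2) :=
          LinearMap.funLeft (ZMod 2) (ZMod 2) fun x => g • x
        have h1 : N ≤ N.comap A := by
          refine Finset.sup_le fun s hs => ?_
          intro c hc
          have h2 : A c ∈ van G C s := by
            refine ⟨hC g c hc.1, ?_⟩
            intro h
            show c (g • (h • s)) = 0
            rw [← mul_smul]
            exact hc.2 _
          exact (Finset.le_sup (f := fun s => van G C s) hs) h2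
        exact h1 hc
      -- elements that act trivially modulo `N`
      let K' : Subgroup G :=
        { carrier := {g | ∀ c ∈ C, (fun x => c (g • x) - c x) ∈ N}
          one_mem' := by
            intro c hc
            have : (fun x : Ω => c ((1 : G) • x) - c x) = 0 := by
              funext x
              rw [one_smul, sub_self]
              rfl
            rw [this]
            exact N.zero_mem
          mul_mem' := by
            intro g h hg hh c hc
            have h1 := hg c hc
            have h2 := hNinv h _ h1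
            have h3 := hh c hc
            have : (fun x : Ω => c ((g * h) • x) - c x) =
                (fun x => c (g • (h • x)) - c (h • x)) + fun x => c (h • x) - c x := by
              funext x
              show c ((g * h) • x) - c x = (c (g • (h • x)) - c (h • x)) + (c (h • x) - c x)
              rw [mul_smul]
              ring
            rw [this]
            exact N.add_mem h2 h3
          inv_mem' := by
            intro g hg c hc
            have h1 := hg c hc
            have h2 := hNinv g⁻¹ _ h1
            have : (fun x : Ω => c (g⁻¹ • x) - c x) =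
                -(fun x => c (g • (g⁻¹ • x)) - c (g⁻¹ • x)) := by
              funext x
              show c (g⁻¹ • x) - c x = -(c (g • (g⁻¹ • x)) - c (g⁻¹ • x))
              rw [smul_inv_smul]
              ring
            rw [this]
            exact N.neg_mem h2 }
      let K : Subgroup G := ⨆ s ∈ S, MulAction.stabilizer G s
      have hstab : ∀ s ∈ S, MulAction.stabilizer G s ≤ K := fun s hs =>
        le_iSup₂_of_le s hs le_rfl
      have hKK' : K ≤ K' := by
        refine iSup₂_le fun s hs => ?_
        intro g hg c hc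
        refine (Finset.le_sup (f := fun s => van G C s) hs) ?_
        refine ⟨C.sub_mem (hC g c hc) hc, ?_⟩
        intro h
        show c (g • (h • s)) - c (h • s) = 0
        rw [smul_comm, show g • s = s from hg, sub_self]
      by_cases hA : ∃ s ∈ S, b < Nat.card (MulAction.orbit K s)
      · -- many translates
        exfalso
        obtain ⟨s, hs, hA⟩ := hA
        obtain ⟨F, hFb, hFK, hFinj⟩ := exists_distinct K s b hA
        have h1 := fix_codim C N F fun g hg c hc => hKK' (hFK g hg) c hc
        have h2 := fixed_dim (fixF C (F : Set G)) s F hFinj fun f hf g hg x => hf.2 g hg x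
        have h3 : finrank (ZMod 2) (van G (fixF C (F : Set G)) s) ≤
            finrank (ZMod 2) (van G C s) := by
          apply Submodule.finrank_mono
          intro c hc
          exact ⟨hc.1.1, hc.2⟩
        rw [hFb] at h1 h2
        have h1' : (finrank (ZMod 2) C : ℝ) ≤ finrank (ZMod 2) (fixF C (F : Set G)) +
            b * finrank (ZMod 2) N := by exact_mod_cast h1
        have h2' : (b : ℝ) * finrank (ZMod 2) (fixF C (F : Set G)) ≤
            b * finrank (ZMod 2) (van G C s) + Fintype.card Ω := by
          have : b * finrank (ZMod 2) (fixF C (F : Set G)) ≤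
            b * finrank (ZMod 2) (van G C s) + Fintype.card Ω :=
            h2.trans (Nat.add_le_add_right (Nat.mul_le_mul_left _ h3) _)
          exact_mod_cast this
        have h4 := (hbig s hs).le
        -- arithmetic
        have h5 : (b : ℝ) * (ρ * Fintype.card Ω) ≤
            b * (η * Fintype.card Ω) + Fintype.card Ω + b * (b * (L * (η * Fintype.card Ω))) := by
          calc (b : ℝ) * (ρ * Fintype.card Ω) ≤ b * finrank (ZMod 2) C :=
                mul_le_mul_of_nonneg_left hdim hb0.le
            _ ≤ b * (finrank (ZMod 2) (fixF C (F : Set G)) + b * finrank (ZMod 2) N) :=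
                mul_le_mul_of_nonneg_left h1' hb0.le
            _ = b * finrank (ZMod 2) (fixF C (F : Set G)) + b * (b * finrank (ZMod 2) N) := by ring
            _ ≤ (b * finrank (ZMod 2) (van G C s) + Fintype.card Ω) +
                b * (b * (L * (η * Fintype.card Ω))) := by
                refine add_le_add h2' ?_
                exact mul_le_mul_of_nonneg_left (mul_le_mul_of_nonneg_left hNdim hb0.le) hb0.le
            _ ≤ _ := by
                refine add_le_add (add_le_add ?_ le_rfl) le_rfl
                exact mul_le_mul_of_nonneg_left h4 hb0.le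
        have h6 : (b : ℝ) * ρ ≤ b * η + 1 + b * (b * (L * η)) := by
          have : ((b : ℝ) * ρ) * Fintype.card Ω ≤
              (b * η + 1 + b * (b * (L * η))) * Fintype.card Ω := by
            calc ((b : ℝ) * ρ) * Fintype.card Ω = b * (ρ * Fintype.card Ω) := by ring
              _ ≤ _ := h5
              _ = _ := by ring
          exact le_of_mul_le_mul_right this hΩ0
        have h7 : η * (1 + b * L) ≤ ρ / 4 := by
          rw [← hη1]
          refine mul_le_mul_of_nonneg_left ?_ hη.le
          have : 0 ≤ (b : ℝ) ^ (ℓ + 1) * L := by positivity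
          linarith
        have h8 : (b : ℝ) * (η * (1 + b * L)) ≤ b * (ρ / 4) := mul_le_mul_of_nonneg_left h7 hb0.le
        have h9 : 0 < (b : ℝ) * ρ := by positivity
        nlinarith
      · push Not at hA
        obtain ⟨F, hFb, hFK, hFrep⟩ := exists_repr K S b hA
        have h1 := fix_codim C N F fun g hg c hc => hKK' (hFK g hg) c hc
        have h1' : (finrank (ZMod 2) C : ℝ) ≤ finrank (ZMod 2) (fixF C (F : Set G)) +
            F.card * finrank (ZMod 2) N := by exact_mod_cast h1
        have hF : (F.card : ℝ) ≤ (b : ℝ) ^ (ℓ + 1) := by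
          have : F.card ≤ b ^ (ℓ + 1) := hFb.trans (Nat.pow_le_pow_right hb1 hS)
          exact_mod_cast this
        have h2 : (F.card : ℝ) * finrank (ZMod 2) N ≤ ρ / 4 * Fintype.card Ω := by
          calc (F.card : ℝ) * finrank (ZMod 2) N
              ≤ (b : ℝ) ^ (ℓ + 1) * (L * (η * Fintype.card Ω)) :=
                mul_le_mul hF hNdim (Nat.cast_nonneg _) (by positivity)
            _ = (η * ((b : ℝ) ^ (ℓ + 1) * L)) * Fintype.card Ω := by ring
            _ ≤ ρ / 4 * Fintype.card Ω := by
                refine mul_le_mul_of_nonneg_right ?_ hΩ0.le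
                rw [← hη1]
                refine mul_le_mul_of_nonneg_left ?_ hη.le
                have : 0 ≤ (b : ℝ) * L := by positivity
                linarith
        have h3 : ρ / 2 * Fintype.card Ω ≤ finrank (ZMod 2) (fixF C (F : Set G)) := by
          have : 0 < ρ * Fintype.card Ω := by positivity
          linarith
        have hfix : ∀ w ∈ fixF C (F : Set G), ∀ k ∈ K, ∀ x, w (k • x) = w x := by
          intro w hw k hk x
          by_cases hx : ∀ s ∈ S, x ∉ MulAction.orbit G s
          · rw [hsupp w hw.1 x hx]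
            refine hsupp w hw.1 _ fun s hs hmem => hx s hs ?_
            obtain ⟨g, hg⟩ := hmem
            refine ⟨k⁻¹ * g, ?_⟩
            show (k⁻¹ * g) • s = x
            rw [mul_smul, show g • s = k • x from hg, inv_smul_smul]
          · push Not at hx
            obtain ⟨s, hs, g, rfl⟩ := hx
            obtain ⟨f, hf, hfs⟩ := hFrep k hk
            show w (k • (g • s)) = w (g • s)
            rw [smul_comm, hfs s hs, smul_comm]
            exact hw.2 f hf _
        obtain ⟨f, hf, hf0, hw⟩ := case_b (e := e) (ℓ := ℓ + 1) (b := b) (n₁ := n₁)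
          (ρ := ρ / 2) (δ := δ / b) (by positivity) (by positivity)
          (fun G X _ _ _ _ => hq G X) hexp S hS hdis K hstab hA (fixF C (F : Set G))
          (by
            intro g w hw
            refine ⟨hC g w hw.1, ?_⟩
            intro f hf x
            show w (g • (f • x)) = w (g • x)
            rw [smul_comm]
            exact hw.2 f hf _)
          hfix (fun w hw x hx => hsupp w hw.1 x hx) h3
          (by
            have h4 : (n₂ : ℝ) ≤ Fintype.card Ω := by exact_mod_cast hn2
            have h5 : (n₁ : ℝ) / (ρ / 2) ≤ Fintype.card Ω := hn₂.trans h4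
            rwa [div_le_iff₀ (by positivity), mul_comm] at h5)
        refine ⟨f, hf.1, hf0, ?_⟩
        calc (hammingNorm f : ℝ) ≤ b * (δ / b * Fintype.card Ω) := hw
          _ = δ * Fintype.card Ω := by field_simp

/-- Abelian automorphism groups of bounded exponent with boundedly many orbits. -/
theorem perm_abelian (e ℓ : ℕ) (he : 0 < e) (ρ δ : ℝ) (hρ : 0 < ρ) (hδ : 0 < δ) :
    ∃ n₀ : ℕ, ∀ (Ω : Type) [Fintype Ω] (C : Submodule (ZMod 2) (Ω → ZMod 2))
      (G : Subgroup (Equiv.Perm Ω)),
      (∀ g ∈ G, ∀ c ∈ C, (fun x => c (g x)) ∈ C) →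
      ρ * Fintype.card Ω ≤ finrank (ZMod 2) C →
      (∀ c ∈ C, c ≠ 0 → δ * Fintype.card Ω ≤ hammingNorm c) →
      (∀ g ∈ G, ∀ h ∈ G, g * h = h * g) → (∀ g ∈ G, g ^ e = 1) →
      Nat.card (MulAction.orbitRel.Quotient G Ω) ≤ ℓ → Fintype.card Ω < n₀ := by
  classical
  obtain ⟨n₀, h₀⟩ := any_orbits e he ℓ ρ (δ / 2) hρ (by linarith)
  refine ⟨max n₀ 1, ?_⟩
  intro Ω _ C G hC hdim hdist hcomm hexp hℓ
  by_contra hcon
  push Not at hcon
  have hn0 : n₀ ≤ Fintype.card Ω := le_trans (le_max_left _ _) hcon
  have hn1 : 1 ≤ Fintype.card Ω := le_trans (le_max_right _ _) hcon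
  have hpos : (0 : ℝ) < Fintype.card Ω := by exact_mod_cast hn1
  let inst : CommGroup G :=
    { (inferInstance : Group G) with
      mul_comm := fun g h => Subtype.ext (hcomm g g.2 h h.2) }
  have : Fintype (MulAction.orbitRel.Quotient G Ω) := Fintype.ofFinite _
  let S : Finset Ω := univ.image fun q : MulAction.orbitRel.Quotient G Ω => Quotient.out q
  have hS : S.card ≤ ℓ := by
    refine Finset.card_image_le.trans ?_
    rw [Finset.card_univ, ← Nat.card_eq_fintype_card]
    exact hℓ
  obtain ⟨f, hf, hf0, hw⟩ := h₀ G Ω (fun g => Subtype.ext (hexp g g.2)) S hS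
    (by
      intro s hs t ht g hg
      obtain ⟨q, _, rfl⟩ := Finset.mem_image.1 hs
      obtain ⟨q', _, rfl⟩ := Finset.mem_image.1 ht
      have h1 : q' = q := by
        rw [← Quotient.out_eq q, ← Quotient.out_eq q']
        apply Quotient.sound
        exact ⟨g, hg⟩
      rw [h1])
    C (fun g c hc => hC g g.2 c hc)
    (by
      intro c _ x hx
      exfalso
      let q : MulAction.orbitRel.Quotient G Ω := Quotient.mk'' x
      have h1 : (Quotient.mk'' x : MulAction.orbitRel.Quotient G Ω) =
          Quotient.mk'' (Quotient.out q) := (Quotient.out_eq q).symm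
      have h2 := MulAction.orbitRel_apply.1 (Quotient.exact h1)
      exact hx _ (Finset.mem_image_of_mem _ (Finset.mem_univ q)) h2)
    hn0 hdim
  have := hdist f hf hf0
  nlinarith

end Pool.Agent.Helper243Two
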