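import Mathlib

/-!
# A box in one colour

The pigeonhole principle for products: every colouring of `[T]^n` with few colours is constant on a
product of `n` pairs.
-/

set_option autoImplicit false

namespace Pool.Agent.Helper243Two

theorem box (n : ℕ) : ∀ c : ℕ, ∃ T : ℕ, ∀ χ : (Fin n → Fin T) → Fin c,
    ∃ a b : Fin n → Fin T, (∀ i, a i ≠ b i) ∧ ∀ x y : Fin n → Fin T,
      (∀ i, x i = a i ∨ x i = b i) → (∀ i, y i = a i ∨ y i = b i) → χ x = χ y := by
  induction n with
  | zero =>
    intro c
    refine ⟨0, fun χ => ⟨Fin.elim0, Fin.elim0, fun i => i.elim0, fun x y _ _ => ?_⟩⟩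
    rw [Subsingleton.elim x y]
  | succ n ih =>
    intro c
    obtain ⟨T, hT⟩ := ih c
    obtain ⟨T', hT'⟩ : ∃ T' : ℕ, T' = T + c ^ (T ^ n) + 1 := ⟨_, rfl⟩
    refine ⟨T', fun χ => ?_⟩
    have hle : T ≤ T' := by omega
    -- two values of the last coordinate with the same restricted colouring
    let Φ : Fin T' → ((Fin n → Fin T) → Fin c) :=
      fun p x => χ (Fin.cons p fun i => Fin.castLE hle (x i))
    have hcard : Fintype.card ((Fin n → Fin T) → Fin c) < Fintype.card (Fin T') := by
      simp only [Fintype.card_fun, Fintype.card_fin]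
      omega
    obtain ⟨p, q, hpq, hΦ⟩ := Fintype.exists_ne_map_eq_of_card_lt Φ hcard
    obtain ⟨a, b, hab, hχ⟩ := hT (Φ p)
    refine ⟨Fin.cons p fun i => Fin.castLE hle (a i), Fin.cons q fun i => Fin.castLE hle (b i),
      ?_, ?_⟩
    · intro i
      refine Fin.cases ?_ (fun i => ?_) i
      · simpa using hpq
      · simp only [Fin.cons_succ]
        intro h
        exact hab i (Fin.castLE_injective hle h)
    · -- reduce every point of the box to a point with last coordinate `p`
      have key : ∀ x : Fin (n + 1) → Fin T',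
          (∀ i, x i = (Fin.cons p fun i => Fin.castLE hle (a i) : Fin (n + 1) → Fin T') i ∨
            x i = (Fin.cons q fun i => Fin.castLE hle (b i) : Fin (n + 1) → Fin T') i) →
          ∃ z : Fin n → Fin T, (∀ i, z i = a i ∨ z i = b i) ∧ χ x = Φ p z := by
        intro x hx
        have hz : ∀ i : Fin n, ∃ z : Fin T, (z = a i ∨ z = b i) ∧ x i.succ = Fin.castLE hle z := by
          intro i
          rcases hx i.succ with h | h
          · exact ⟨a i, Or.inl rfl, by simpa using h⟩
          · exact ⟨b i, Or.inr rfl, by simpa using h⟩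
        choose z hz1 hz2 using hz
        refine ⟨z, hz1, ?_⟩
        have hx' : x = Fin.cons (x 0) fun i => Fin.castLE hle (z i) := by
          funext i
          refine Fin.cases ?_ (fun i => ?_) i
          · simp
          · simp [hz2]
        rcases hx 0 with h | h
        · rw [hx', show x 0 = p by simpa using h]
        · rw [hx', show x 0 = q by simpa using h, hΦ]
      intro x y hx hy
      obtain ⟨z, hz, hxz⟩ := key x hx
      obtain ⟨w, hw, hyw⟩ := key y hy
      rw [hxz, hyw]
      exact hχ z w hz hw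

/-- The same with an arbitrary finite set of colours. -/
theorem box' (n : ℕ) (c : ℕ) : ∃ T : ℕ, ∀ (κ : Type) [Fintype κ], Fintype.card κ ≤ c →
    ∀ χ : (Fin n → Fin T) → κ,
    ∃ a b : Fin n → Fin T, (∀ i, a i ≠ b i) ∧ ∀ x y : Fin n → Fin T,
      (∀ i, x i = a i ∨ x i = b i) → (∀ i, y i = a i ∨ y i = b i) → χ x = χ y := by
  obtain ⟨T, hT⟩ := box n c
  refine ⟨T, fun κ _ hκ χ => ?_⟩
  obtain ⟨e⟩ : Nonempty (κ ↪ Fin c) := by
    apply Function.Embedding.nonempty_of_card_le
    simpa using hκ
  obtain ⟨a, b, hab, h⟩ := hT fun x => e (χ x)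
  exact ⟨a, b, hab, fun x y hx hy => e.injective (h x y hx hy)⟩

end Pool.Agent.Helper243Two
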