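import Pool.Agent.Helper243_Two.AnyAct

/-!
# Codes fixed by the stabilisers
-/

set_option autoImplicit false

namespace Pool.Agent.Helper243Two

open Finset Module Pool.Agent.Helper243Abel

theorem case_b {e ℓ b n₁ : ℕ} {ρ δ : ℝ} (hρ : 0 < ρ) (hδ : 0 < δ)
    (hq : ∀ (G X : Type) [CommGroup G] [Finite G] [Fintype X] [MulAction G X],
      (∀ g : G, g ^ e = 1) → (∀ (g : G) (x : X), g • x = x → g = 1) →
      Nat.card (MulAction.orbitRel.Quotient G X) ≤ ℓ →
      n₁ ≤ Fintype.card X →
      ∀ C : Submodule (ZMod 2) (X → ZMod 2), Invariant G C →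
        ρ * Fintype.card X ≤ finrank (ZMod 2) C →
        ∃ f ∈ C, f ≠ 0 ∧ (hammingNorm f : ℝ) ≤ δ * Fintype.card X)
    {G Ω : Type} [CommGroup G] [Finite G] [Fintype Ω] [MulAction G Ω]
    (he : ∀ g : G, g ^ e = 1) (S : Finset Ω) (hSℓ : S.card ≤ ℓ)
    (hS : ∀ s ∈ S, ∀ t ∈ S, ∀ g : G, g • s = t → s = t) (K : Subgroup G)
    (hK : ∀ s ∈ S, MulAction.stabilizer G s ≤ K)
    (hb : ∀ s ∈ S, Nat.card (MulAction.orbit K s) ≤ b)
    (W : Submodule (ZMod 2) (Ω → ZMod 2))
    (hinv : ∀ g : G, ∀ w ∈ W, (fun x => w (g • x)) ∈ W)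
    (hWK : ∀ w ∈ W, ∀ k ∈ K, ∀ x, w (k • x) = w x)
    (hWS : ∀ w ∈ W, ∀ x, (∀ s ∈ S, x ∉ MulAction.orbit G s) → w x = 0)
    (hdim : ρ * Fintype.card Ω ≤ finrank (ZMod 2) W) (hn : (n₁ : ℝ) ≤ ρ * Fintype.card Ω) :
    ∃ f ∈ W, f ≠ 0 ∧ (hammingNorm f : ℝ) ≤ b * (δ * Fintype.card Ω) := by
  classical
  have hfinQ : Fintype (G ⧸ K) := Fintype.ofFinite _
  let X : Type := (G ⧸ K) × S
  let act : MulAction (G ⧸ K) X :=
    { smul := fun a p => (a * p.1, p.2)
      one_smul := fun p => Prod.ext (one_mul _) rfl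
      mul_smul := fun a c p => Prod.ext (mul_assoc _ _ _) rfl }
  have hact : ∀ (a : G ⧸ K) (p : X), a • p = (a * p.1, p.2) := fun a p => rfl
  -- words as functions on `X`
  have key : ∀ w ∈ W, ∀ (g : G) (s : Ω), w ((g : G ⧸ K).out • s) = w (g • s) := by
    intro w hw g s
    obtain ⟨k, hk⟩ := QuotientGroup.mk_out_eq_mul K g
    rw [hk, mul_comm, mul_smul]
    exact hWK w hw k k.2 _
  let Ψ : W →ₗ[ZMod 2] (X → ZMod 2) :=
    { toFun := fun w p => w.1 (p.1.out • (p.2 : Ω))
      map_add' := fun f g => rfl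
      map_smul' := fun r f => rfl }
  have hΨ : ∀ (w : W) (g : G) (s : S), Ψ w ((g : G ⧸ K), s) = w.1 (g • (s : Ω)) :=
    fun w g s => key w.1 w.2 g s
  have hΨinj : Function.Injective Ψ := by
    rw [injective_iff_map_eq_zero]
    intro w hw
    apply Subtype.ext
    funext x
    show w.1 x = 0
    by_cases hx : ∀ s ∈ S, x ∉ MulAction.orbit G s
    · exact hWS w.1 w.2 x hx
    · push Not at hx
      obtain ⟨s, hs, g, rfl⟩ := hx
      have h1 := hΨ w g ⟨s, hs⟩
      rw [hw] at h1
      exact h1.symm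
  -- the number of coordinates
  have hXΩ : Fintype.card X ≤ Fintype.card Ω := by
    refine Fintype.card_le_of_injective (fun p : X => p.1.out • (p.2 : Ω)) ?_
    rintro ⟨q, s⟩ ⟨q', s'⟩ h
    simp only at h
    have h1 : (q'.out⁻¹ * q.out) • (s : Ω) = s' := by
      rw [mul_smul, h, inv_smul_smul]
    have h2 : (s : Ω) = s' := hS s s.2 s' s'.2 _ h1
    have h3 : s = s' := Subtype.ext h2
    subst h3
    have h4 : q'.out⁻¹ * q.out ∈ K := hK s s.2 h1
    have h5 : q' = q := by
      rw [← QuotientGroup.out_eq' q', ← QuotientGroup.out_eq' q]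
      exact QuotientGroup.eq.2 h4
    rw [h5]
  have hrank : finrank (ZMod 2) (LinearMap.range Ψ) = finrank (ZMod 2) W :=
    LinearMap.finrank_range_of_inj hΨinj
  have hΩ0 : (0 : ℝ) ≤ Fintype.card Ω := Nat.cast_nonneg _
  have hXR : (Fintype.card X : ℝ) ≤ Fintype.card Ω := by exact_mod_cast hXΩ
  have hWX : finrank (ZMod 2) W ≤ Fintype.card X := by
    rw [← hrank]
    refine (Submodule.finrank_le _).trans ?_
    rw [Module.finrank_fintype_fun_eq_card]
  have hn1 : n₁ ≤ Fintype.card X := by
    have h1 : (n₁ : ℝ) ≤ Fintype.card X :=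
      hn.trans (hdim.trans (by exact_mod_cast hWX))
    exact_mod_cast h1
  obtain ⟨u, hu, hu0, hwt⟩ := hq (G ⧸ K) X
    (by
      intro a
      induction a using QuotientGroup.induction_on with | H a => ?_
      rw [← QuotientGroup.mk_pow, he, QuotientGroup.mk_one])
    (by
      intro a p hap
      have h1 := congrArg Prod.fst hap
      rw [hact] at h1
      exact mul_eq_right.1 h1)
    (by
      refine le_trans ?_ hSℓ
      rw [← Fintype.card_coe S, ← Nat.card_eq_fintype_card]
      refine Nat.card_le_card_of_surjective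
        (fun s : S => (Quotient.mk'' ((1 : G ⧸ K), s) : MulAction.orbitRel.Quotient (G ⧸ K) X)) ?_
      intro q
      induction q using Quotient.inductionOn' with | h p => ?_
      refine ⟨p.2, ?_⟩
      apply Quotient.sound
      refine ⟨p.1⁻¹, ?_⟩
      show (p.1⁻¹ * p.1, p.2) = _
      rw [inv_mul_cancel])
    hn1 (LinearMap.range Ψ)
    (by
      intro a
      induction a using QuotientGroup.induction_on with | H a => ?_
      rintro _ ⟨w, rfl⟩
      refine ⟨⟨_, hinv a w.1 w.2⟩, ?_⟩
      funext p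
      obtain ⟨q, s⟩ := p
      induction q using QuotientGroup.induction_on with | H g => ?_
      rw [hΨ]
      show w.1 (a • (g • (s : Ω))) = Ψ w (((a : G ⧸ K) * (g : G ⧸ K)), s)
      rw [← QuotientGroup.mk_mul, hΨ, mul_smul])
    (by
      rw [hrank]
      refine le_trans ?_ hdim
      exact mul_le_mul_of_nonneg_left hXR hρ.le)
  obtain ⟨w, rfl⟩ := hu
  refine ⟨w.1, w.2, ?_, ?_⟩
  · intro h
    apply hu0
    have : w = 0 := Subtype.ext h
    rw [this, map_zero]
  · -- the weight
    have hcov : ∀ x : Ω, w.1 x ≠ 0 → ∃ p : G × S, p.1 • (p.2 : Ω) = x := by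
      intro x hx
      by_contra hcon
      push Not at hcon
      apply hx
      apply hWS w.1 w.2 x
      rintro s hs ⟨g, hg⟩
      exact hcon (g, ⟨s, hs⟩) hg
    have hmain : hammingNorm w.1 ≤ b * hammingNorm (Ψ w) := by
      unfold hammingNorm
      by_cases hne : Nonempty (G × S)
      swap
      · have : (univ.filter fun x => w.1 x ≠ 0) = ∅ := by
          rw [Finset.filter_eq_empty_iff]
          intro x _ hx
          obtain ⟨p, _⟩ := hcov x hx
          exact hne ⟨p⟩
        rw [this, Finset.card_empty]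
        exact Nat.zero_le _
      let pt : Ω → G × S := fun x => if h : w.1 x ≠ 0 then (hcov x h).choose else Classical.choice hne
      have hpt : ∀ x, w.1 x ≠ 0 → (pt x).1 • ((pt x).2 : Ω) = x := by
        intro x hx
        show (if h : w.1 x ≠ 0 then (hcov x h).choose else Classical.choice hne).1 •
          ((if h : w.1 x ≠ 0 then (hcov x h).choose else Classical.choice hne).2 : Ω) = x
        rw [dif_pos hx]
        exact (hcov x hx).choose_spec
      refine Finset.card_le_mul_card_image_of_maps_to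
        (f := fun x => (((pt x).1 : G ⧸ K), (pt x).2)) ?_ b ?_
      · intro x hx
        rw [Finset.mem_filter] at hx ⊢
        refine ⟨Finset.mem_univ _, ?_⟩
        have h1 := hΨ w (pt x).1 (pt x).2
        rw [hpt x hx.2] at h1
        rw [h1]
        exact hx.2
      · rintro ⟨q, s⟩ _
        have hfin : Fintype (MulAction.orbit K (s : Ω)) := Fintype.ofFinite _
        have h1 := hb s s.2
        rw [Nat.card_eq_fintype_card] at h1
        refine le_trans ?_ h1
        rw [← Set.toFinset_card]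
        refine Finset.card_le_card_of_injOn (fun x => q.out⁻¹ • x) ?_ ?_
        · intro x hx
          simp only [Finset.coe_filter, Finset.mem_filter, Finset.mem_univ, true_and,
            Set.mem_setOf_eq] at hx
          obtain ⟨hx0, hxq⟩ := hx
          have h2 : ((pt x).1 : G ⧸ K) = q := congrArg Prod.fst hxq
          have h3 : (pt x).2 = s := congrArg Prod.snd hxq
          have h4 := hpt x hx0
          rw [h3] at h4
          simp only [Set.coe_toFinset]
          have h5 : q.out⁻¹ * (pt x).1 ∈ K := by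
            rw [← QuotientGroup.eq, QuotientGroup.out_eq', h2]
          refine ⟨⟨_, h5⟩, ?_⟩
          show (q.out⁻¹ * (pt x).1) • (s : Ω) = q.out⁻¹ • x
          rw [mul_smul, h4]
        · intro x _ y _ hxy
          exact MulAction.injective _ hxy
    calc (hammingNorm w.1 : ℝ) ≤ b * hammingNorm (Ψ w) := by exact_mod_cast hmain
      _ ≤ b * (δ * Fintype.card X) := mul_le_mul_of_nonneg_left hwt (Nat.cast_nonneg _)
      _ ≤ b * (δ * Fintype.card Ω) :=
          mul_le_mul_of_nonneg_left (mul_le_mul_of_nonneg_left hXR hδ.le) (Nat.cast_nonneg _)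

end Pool.Agent.Helper243Two
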