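import Mathlib

/-!
# Cyclic 2-groups: shift-invariant modules of functions on `Z / 2 ^ e`
-/

set_option autoImplicit false

namespace Pool.Agent.Helper243Two

open Module

section chain

variable {R : Type} [CommRing R] [CharP R 2] {e : ℕ}

/-- The difference operator. -/
def dif (R : Type) [CommRing R] (e : ℕ) : (ZMod (2 ^ e) → R) →ₗ[R] (ZMod (2 ^ e) → R) where
  toFun := fun F z => F (z + 1) + F z
  map_add' := by
    intro F G
    funext z
    simp only [Pi.add_apply]
    ring
  map_smul' := by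
    intro c F
    funext z
    simp only [Pi.smul_apply, smul_eq_mul, RingHom.id_apply]
    ring

omit [CharP R 2] in
theorem dif_apply (F : ZMod (2 ^ e) → R) (z : ZMod (2 ^ e)) :
    dif R e F z = F (z + 1) + F z := rfl

theorem dif_pow (t : ℕ) : ∀ (F : ZMod (2 ^ e) → R) (z : ZMod (2 ^ e)),
    ((dif R e) ^ (2 ^ t)) F z = F (z + (2 ^ t : ℕ)) + F z := by
  induction t with
  | zero =>
    intro F z
    simp [dif_apply]
  | succ t ih =>
    intro F z
    rw [pow_succ, mul_two, pow_add, Module.End.mul_apply, ih, ih, ih]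
    have h1 : z + ((2 ^ t : ℕ) : ZMod (2 ^ e)) + ((2 ^ t : ℕ) : ZMod (2 ^ e)) =
        z + ((2 ^ t + 2 ^ t : ℕ) : ZMod (2 ^ e)) := by push_cast; ring
    rw [h1]
    have h2 := CharTwo.add_self_eq_zero (F (z + ((2 ^ t : ℕ) : ZMod (2 ^ e))))
    linear_combination h2

/-- A function with difference zero is constant. -/
theorem const_of_dif (G : ZMod (2 ^ e) → R) (hG : dif R e G = 0) (z : ZMod (2 ^ e)) :
    G z = G 0 := by
  have h1 : ∀ z, G (z + 1) = G z := by
    intro z
    have := congrFun hG z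
    rw [dif_apply] at this
    exact CharTwo.add_eq_zero.1 this
  have h2 : ∀ n : ℕ, G (n : ZMod (2 ^ e)) = G 0 := by
    intro n
    induction n with
    | zero => simp
    | succ n ih => rw [Nat.cast_succ, h1, ih]
  have := h2 z.val
  rwa [ZMod.natCast_zmod_val] at this

theorem chain (hR : ∀ b : R, b ≠ 0 → ∃ s : R, (s * b) * (s * b) = s * b ∧ s * b ≠ 0)
    (t : ℕ) (hte : t ≤ e) (W : Submodule R (ZMod (2 ^ e) → R))
    (hshift : ∀ F ∈ W, (fun z => F (z + 1)) ∈ W) (F : ZMod (2 ^ e) → R) (hF : F ∈ W)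
    (hF0 : F ≠ 0) (hv : ∀ z : ZMod (2 ^ e), z.val < 2 ^ t → F z = 0) :
    ∃ ε : R, ε ≠ 0 ∧ (fun z : ZMod (2 ^ e) => if 2 ^ t ∣ z.val then ε else 0) ∈ W := by
  classical
  have hdif : ∀ G ∈ W, dif R e G ∈ W := fun G hG => W.add_mem (hshift G hG) hG
  have hdifk : ∀ k : ℕ, ∀ G ∈ W, ((dif R e) ^ k) G ∈ W := by
    intro k
    induction k with
    | zero => intro G hG; simpa using hG
    | succ k ih =>
      intro G hG
      rw [pow_succ', Module.End.mul_apply]
      exact hdif _ (ih G hG)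
  -- the difference of order `2 ^ t` does not vanish
  have hne : ((dif R e) ^ (2 ^ t)) F ≠ 0 := by
    intro h0
    apply hF0
    have hper : ∀ z, F (z + (2 ^ t : ℕ)) = F z := by
      intro z
      have := congrFun h0 z
      rw [dif_pow] at this
      exact CharTwo.add_eq_zero.1 this
    have hq : ∀ (q r : ℕ), F (((2 ^ t * q + r : ℕ) : ZMod (2 ^ e))) = F (r : ZMod (2 ^ e)) := by
      intro q r
      induction q with
      | zero => simp
      | succ q ih =>
        have h1 : ((2 ^ t * (q + 1) + r : ℕ) : ZMod (2 ^ e)) =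
            ((2 ^ t * q + r : ℕ) : ZMod (2 ^ e)) + ((2 ^ t : ℕ) : ZMod (2 ^ e)) := by
          push_cast; ring
        rw [h1, hper, ih]
    funext z
    have h1 := hq (z.val / 2 ^ t) (z.val % 2 ^ t)
    rw [Nat.div_add_mod, ZMod.natCast_zmod_val] at h1
    rw [h1]
    apply hv
    have h2 : z.val % 2 ^ t < 2 ^ t := Nat.mod_lt _ (by positivity)
    rw [ZMod.val_natCast_of_lt (lt_of_lt_of_le h2 (Nat.pow_le_pow_right (by norm_num) hte))]
    exact h2
  have hzero : ∃ k : ℕ, ((dif R e) ^ k) F = 0 := by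
    refine ⟨2 ^ e, ?_⟩
    funext z
    rw [dif_pow, ZMod.natCast_self, add_zero]
    exact CharTwo.add_self_eq_zero _
  have hmono : ∀ k l : ℕ, k ≤ l → ∀ G : ZMod (2 ^ e) → R, ((dif R e) ^ k) G = 0 →
      ((dif R e) ^ l) G = 0 := by
    intro k l hkl G hk
    obtain ⟨m, rfl⟩ := Nat.exists_eq_add_of_le hkl
    rw [add_comm, pow_add, Module.End.mul_apply, hk, map_zero]
  obtain ⟨k, hk⟩ : ∃ k, k = Nat.find hzero := ⟨_, rfl⟩
  have hk1 : ((dif R e) ^ k) F = 0 := hk ▸ Nat.find_spec hzero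
  have hk2 : ∀ l < k, ((dif R e) ^ l) F ≠ 0 := by
    intro l hl
    rw [hk] at hl
    exact Nat.find_min hzero hl
  have hkt : 2 ^ t < k := by
    by_contra hcon
    push Not at hcon
    exact hne (hmono k _ hcon F hk1)
  have hkpos : 0 < k := lt_of_le_of_lt (Nat.zero_le _) hkt
  obtain ⟨j, rfl⟩ : ∃ j, k = j + 1 := ⟨k - 1, by omega⟩
  have hjt : 2 ^ t ≤ j := by omega
  -- the leading coefficient
  have hb0 := hk2 j (Nat.lt_succ_self j)
  have hbc : ∀ z, ((dif R e) ^ j) F z = ((dif R e) ^ j) F 0 := by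
    apply const_of_dif
    rw [← Module.End.mul_apply, ← pow_succ']
    exact hk1
  have hb : ((dif R e) ^ j) F 0 ≠ 0 := by
    intro h
    apply hb0
    funext z
    rw [hbc z, h]
    rfl
  obtain ⟨s, hs1, hs2⟩ := hR _ hb
  obtain ⟨ε, hε⟩ : ∃ ε, ε = s * ((dif R e) ^ j) F 0 := ⟨_, rfl⟩
  rw [← hε] at hs1 hs2
  -- the normalised function
  obtain ⟨F₁, hF₁⟩ : ∃ F₁, F₁ = s • F := ⟨_, rfl⟩
  have hF₁W : F₁ ∈ W := by
    rw [hF₁]
    exact W.smul_mem s hF
  have hF₁j : ∀ z, ((dif R e) ^ j) F₁ z = ε := by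
    intro z
    rw [hF₁, map_smul, Pi.smul_apply, smul_eq_mul, hbc z, hε]
  refine ⟨ε, hs2, ?_⟩
  -- all functions of smaller degree with values in the ideal of `ε`
  have key : ∀ i : ℕ, i ≤ j + 1 → ∀ h : ZMod (2 ^ e) → R, (∀ z, ε * h z = h z) →
      ((dif R e) ^ i) h = 0 → h ∈ W := by
    intro i
    induction i with
    | zero =>
      intro _ h _ h0
      rw [pow_zero, Module.End.one_apply] at h0
      rw [h0]
      exact W.zero_mem
    | succ i ih =>
      intro hi h hεh h0
      have hc : ∀ z, ((dif R e) ^ i) h z = ((dif R e) ^ i) h 0 := by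
        apply const_of_dif
        rw [← Module.End.mul_apply, ← pow_succ']
        exact h0
      obtain ⟨b, hbdef⟩ : ∃ b, b = ((dif R e) ^ i) h 0 := ⟨_, rfl⟩
      have hεh' : ε • h = h := by
        funext z
        exact hεh z
      have hεb : ε * b = b := by
        rw [hbdef]
        have h1 := congrArg (fun g => ((dif R e) ^ i) g 0) hεh'
        simp only [map_smul, Pi.smul_apply, smul_eq_mul] at h1
        exact h1
      have hG : (ε * b) • ((dif R e) ^ (j - i)) F₁ ∈ W := W.smul_mem _ (hdifk _ _ hF₁W)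
      have h2 : h - (ε * b) • ((dif R e) ^ (j - i)) F₁ ∈ W := by
        apply ih (by omega)
        · intro z
          rw [Pi.sub_apply, Pi.smul_apply, smul_eq_mul, mul_sub, hεh z, ← mul_assoc, ← mul_assoc,
            hs1]
        · rw [map_sub, map_smul, ← Module.End.mul_apply, ← pow_add]
          have h3 : i + (j - i) = j := by omega
          rw [h3]
          funext z
          rw [Pi.sub_apply, Pi.smul_apply, hF₁j z, hc z, ← hbdef, smul_eq_mul, hεb, mul_comm b ε,
            hεb, sub_self]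
          rfl
      have h3 := W.add_mem h2 hG
      rwa [sub_add_cancel] at h3
  apply key (2 ^ t) (by omega)
  · intro z
    show ε * (if 2 ^ t ∣ z.val then ε else 0) = if 2 ^ t ∣ z.val then ε else 0
    split_ifs
    · exact hs1
    · exact mul_zero _
  · funext z
    rw [dif_pow]
    have h1 : 2 ^ t ∣ (z + ((2 ^ t : ℕ) : ZMod (2 ^ e))).val ↔ 2 ^ t ∣ z.val := by
      have hd : 2 ^ t ∣ 2 ^ e := pow_dvd_pow 2 hte
      rw [ZMod.val_add, Nat.dvd_mod_iff hd, ZMod.val_natCast]
      rw [Nat.dvd_add_left]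
      exact (Nat.dvd_mod_iff hd).2 dvd_rfl
    simp only [h1]
    exact CharTwo.add_self_eq_zero _

end chain

/-- Group algebras of groups of odd order over the field with two elements. -/
theorem idem {Q : Type} [CommGroup Q] [Fintype Q] (hQ : Odd (Fintype.card Q))
    (b : MonoidAlgebra (ZMod 2) Q) (hb : b ≠ 0) :
    ∃ s : MonoidAlgebra (ZMod 2) Q, (s * b) * (s * b) = s * b ∧ s * b ≠ 0 := by
  have hchar : CharP (MonoidAlgebra (ZMod 2) Q) 2 :=
    charP_of_injective_algebraMap (algebraMap (ZMod 2) (MonoidAlgebra (ZMod 2) Q)).injective 2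
  have hcop : Nat.Coprime 2 (Fintype.card Q) := hQ.coprime_two_left
  obtain ⟨r, hr⟩ : ∃ r, r = Nat.totient (Fintype.card Q) := ⟨_, rfl⟩
  have hr1 : 1 ≤ r := by
    rw [hr]
    exact Nat.totient_pos.2 Fintype.card_pos
  have hmod : 2 ^ r ≡ 1 [MOD Fintype.card Q] := by
    rw [hr]
    exact Nat.ModEq.pow_totient hcop
  have hq : ∀ q : Q, q ^ (2 ^ r) = q := by
    intro q
    have h1 : q ^ (2 ^ r) = q ^ 1 := by
      rw [pow_eq_pow_iff_modEq]
      exact hmod.of_dvd (orderOf_dvd_card)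
    rw [h1, pow_one]
  have hfrob : ∀ c : MonoidAlgebra (ZMod 2) Q, c ^ (2 ^ r) = c := by
    intro c
    induction c using MonoidAlgebra.induction_linear with
    | zero => exact zero_pow (by positivity)
    | add f g hf hg => rw [add_pow_char_pow, hf, hg]
    | single q z =>
      rw [MonoidAlgebra.single_pow, hq]
      have : ∀ z : ZMod 2, ∀ n : ℕ, n ≠ 0 → z ^ n = z := by
        intro z n hn
        fin_cases z
        · exact zero_pow hn
        · exact one_pow n
      rw [this z _ (by positivity)]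
  have h2 : 2 ^ r = (2 ^ r - 2) + 2 := by
    have : 2 ^ 1 ≤ 2 ^ r := Nat.pow_le_pow_right (by norm_num) hr1
    omega
  refine ⟨b ^ (2 ^ r - 2), ?_, ?_⟩
  · rw [← pow_succ]
    calc b ^ (2 ^ r - 2 + 1) * b ^ (2 ^ r - 2 + 1) = b ^ (2 ^ r - 2 + 2) * b ^ (2 ^ r - 2) := by
          ring
      _ = b * b ^ (2 ^ r - 2) := by rw [← h2, hfrob]
      _ = b ^ (2 ^ r - 2 + 1) := by ring
  · intro h0
    apply hb
    rw [← hfrob b, h2, pow_succ, pow_succ, h0, zero_mul]

end Pool.Agent.Helper243Two
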