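import Pool.Agent.Helper243_Two.Main

/-!
# Codes invariant under 2-groups with large elementary abelian quotients: the main theorem
-/

set_option autoImplicit false

namespace Pool.Agent.Helper243Two

open Finset Module

theorem core (ℓ : ℕ) (ρ δ : ℝ) (hρ : 0 < ρ) (hδ : 0 < δ) :
    ∃ m₀ : ℕ, ∀ (P J : Type) [Group P] [Fintype P] [Fintype J] [Nonempty J], IsPGroup 2 P →
      Fintype.card J ≤ ℓ →
      ∀ (d : ℕ) (φ : P →* Multiplicative (Fin d → ZMod 2)), m₀ ≤ d → Function.Surjective φ →
      ∀ C : Submodule (ZMod 2) (P × J → ZMod 2),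
        (∀ h : P, ∀ f ∈ C, (fun q : P × J => f (h * q.1, q.2)) ∈ C) →
        ρ * (Fintype.card P * Fintype.card J) ≤ finrank (ZMod 2) C →
        ∃ f ∈ C, f ≠ 0 ∧ (hammingNorm f : ℝ) ≤ δ * (Fintype.card P * Fintype.card J) := by
  classical
  obtain ⟨r, hr⟩ := exists_pow_lt_of_lt_one hδ (by norm_num : (1 / 2 : ℝ) < 1)
  obtain ⟨n, hn⟩ := few r ρ hρ
  obtain ⟨T, hT⟩ := box' n (2 ^ (2 ^ n * ℓ))
  refine ⟨n * T, ?_⟩
  intro P J _ _ _ _ hP hJ d φ hd hφ C hC hdim
  -- the coordinates are arranged in `n` groups of `T`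
  let e : Fin n × Fin T → Fin d := fun q => Fin.castLE hd (finProdFinEquiv q)
  have he : Function.Injective e := (Fin.castLE_injective hd).comp finProdFinEquiv.injective
  let A : (Fin n → Fin T) → Fin n → Fin d := fun x i => e (i, x i)
  have hA : ∀ x, Function.Injective (A x) := by
    intro x i k h
    exact congrArg Prod.fst (he h)
  have hcardJ : (0 : ℝ) < Fintype.card J := by exact_mod_cast Fintype.card_pos
  have hcardP : (0 : ℝ) < Fintype.card P := by exact_mod_cast Fintype.card_pos
  have h2n : (0 : ℝ) < 2 ^ n := by positivity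
  -- a function of high degree for every choice of coordinates
  have hex : ∀ x : Fin n → Fin T, ∃ F ∈ C.comap (pull (J := J) φ (A x)), F ≠ 0 ∧
      ∀ S : Finset (Fin n), S.card < r → ∀ j, D S F 0 j = 0 := by
    intro x
    apply exists_high
    have h1 := finrank_le_comap hP hC φ (A x) (coords_surj hφ (hA x))
    rw [Nat.card_eq_fintype_card] at h1
    have h2 : (finrank (ZMod 2) C : ℝ) * 2 ^ n ≤
        Fintype.card P * finrank (ZMod 2) (C.comap (pull (J := J) φ (A x))) := by
      exact_mod_cast h1
    have h3 : ρ * (Fintype.card P * Fintype.card J) * 2 ^ n ≤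
        Fintype.card P * finrank (ZMod 2) (C.comap (pull (J := J) φ (A x))) :=
      le_trans (mul_le_mul_of_nonneg_right hdim h2n.le) h2
    have h4 : ρ * Fintype.card J * 2 ^ n ≤
        finrank (ZMod 2) (C.comap (pull (J := J) φ (A x))) := by
      refine le_of_mul_le_mul_left ?_ hcardP
      calc (Fintype.card P : ℝ) * (ρ * Fintype.card J * 2 ^ n) =
          ρ * (Fintype.card P * Fintype.card J) * 2 ^ n := by ring
        _ ≤ _ := h3
    have h5 : (Fintype.card {S : Finset (Fin n) // S.card < r} : ℝ) * Fintype.card J <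
        finrank (ZMod 2) (C.comap (pull (J := J) φ (A x))) := by
      calc (Fintype.card {S : Finset (Fin n) // S.card < r} : ℝ) * Fintype.card J
          < (ρ * 2 ^ n) * Fintype.card J := mul_lt_mul_of_pos_right hn hcardJ
        _ = ρ * Fintype.card J * 2 ^ n := by ring
        _ ≤ _ := h4
    exact_mod_cast h5
  choose F hFC hF0 hFr using hex
  have hcol : Fintype.card ((Fin n → ZMod 2) × J → ZMod 2) ≤ 2 ^ (2 ^ n * ℓ) := by
    rw [Fintype.card_fun, ZMod.card, Fintype.card_prod, Fintype.card_fun, ZMod.card,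
      Fintype.card_fin]
    exact Nat.pow_le_pow_right (by norm_num) (Nat.mul_le_mul_left _ hJ)
  obtain ⟨a, b, hab, hbox⟩ := hT _ hcol F
  have hFbox : ∀ x : Fin n → Fin T, (∀ i, x i = a i ∨ x i = b i) → F x = F a :=
    fun x hx => hbox x a hx fun i => Or.inl rfl
  obtain ⟨S, c, hc0, hc⟩ := exists_top (F a) (hF0 a)
  have hSr : r ≤ S.card := by
    by_contra hcon
    push Not at hcon
    apply hc0
    funext j
    rw [← hc 0 j]
    exact hFr a S hcon j
  have hAab : ∀ i k, A a i ≠ A b k := by
    intro i k h
    have h1 := he h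
    have h2 : i = k := congrArg Prod.fst h1
    subst h2
    exact hab i (congrArg Prod.snd h1)
  -- the word
  let w : P × J → ZMod 2 := fun q => ∑ U ∈ S.powerset,
    F a (fun i => if i ∈ U then Multiplicative.toAdd (φ q.1) (A b i)
      else Multiplicative.toAdd (φ q.1) (A a i), q.2)
  have hw : ∀ q, w q = if ∀ i ∈ S, Multiplicative.toAdd (φ q.1) (A a i) ≠
      Multiplicative.toAdd (φ q.1) (A b i) then c q.2 else 0 := by
    intro q
    have h := alt S (F a) (fun i => Multiplicative.toAdd (φ q.1) (A a i))
      (fun i => Multiplicative.toAdd (φ q.1) (A b i)) q.2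
    rw [hc] at h
    exact h
  have hwC : w ∈ C := by
    have h1 : w = ∑ U ∈ S.powerset, pull φ (A fun i => if i ∈ U then b i else a i) (F a) := by
      funext q
      rw [Finset.sum_apply]
      refine Finset.sum_congr rfl fun U _ => ?_
      rw [pull_apply]
      congr 2
      funext i
      by_cases hi : i ∈ U
      · simp [hi, A]
      · simp [hi, A]
    rw [h1]
    refine Submodule.sum_mem _ fun U _ => ?_
    have h2 := hFbox (fun i => if i ∈ U then b i else a i) (by
      intro i
      by_cases hi : i ∈ U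
      · right; simp [hi]
      · left; simp [hi])
    have h3 := hFC (fun i => if i ∈ U then b i else a i)
    rw [h2] at h3
    exact h3
  refine ⟨w, hwC, ?_, ?_⟩
  · -- the word is not zero
    obtain ⟨j, hj⟩ : ∃ j, c j ≠ 0 := by
      by_contra hcon
      push Not at hcon
      exact hc0 (funext hcon)
    obtain ⟨g, hg⟩ := hφ (Multiplicative.ofAdd (Function.extend (A a) 1 0))
    intro h0
    have h1 := hw (g, j)
    rw [h0, if_pos] at h1
    · exact hj h1.symm
    · intro i _
      rw [hg]
      show Function.extend (A a) 1 0 (A a i) ≠ Function.extend (A a) 1 0 (A b i)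
      rw [(hA a).extend_apply, Function.extend_apply' _ _ _ (by
        rintro ⟨k, hk⟩
        exact hAab k i hk)]
      exact one_ne_zero
  · -- its weight
    have h1 : hammingNorm w ≤ (Finset.univ.filter fun g : P => ∀ i ∈ S,
        Multiplicative.toAdd (φ g) (A a i) ≠ Multiplicative.toAdd (φ g) (A b i)).card *
        Fintype.card J := by
      rw [hammingNorm, ← Finset.card_univ (α := J), ← Finset.card_product]
      refine Finset.card_le_card fun q hq => ?_
      rw [Finset.mem_filter] at hq
      rw [Finset.mem_product, Finset.mem_filter]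
      refine ⟨⟨Finset.mem_univ _, ?_⟩, Finset.mem_univ _⟩
      by_contra hcon
      apply hq.2
      rw [hw, if_neg hcon]
    have h2 := card_sep φ hφ (A a) (A b) (hA a) hAab S
    have h3 : (hammingNorm w : ℝ) * 2 ^ S.card ≤ Fintype.card P * Fintype.card J := by
      have h4 : hammingNorm w * 2 ^ S.card ≤ Fintype.card P * Fintype.card J := by
        calc hammingNorm w * 2 ^ S.card ≤ ((Finset.univ.filter fun g : P => ∀ i ∈ S,
            Multiplicative.toAdd (φ g) (A a i) ≠ Multiplicative.toAdd (φ g) (A b i)).card *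
            Fintype.card J) * 2 ^ S.card := Nat.mul_le_mul_right _ h1
          _ = ((Finset.univ.filter fun g : P => ∀ i ∈ S,
            Multiplicative.toAdd (φ g) (A a i) ≠ Multiplicative.toAdd (φ g) (A b i)).card *
              2 ^ S.card) * Fintype.card J := by ring
          _ = Fintype.card P * Fintype.card J := by rw [h2]
      exact_mod_cast h4
    have h5 : (1 / 2 : ℝ) ^ S.card ≤ δ := by
      calc (1 / 2 : ℝ) ^ S.card ≤ (1 / 2 : ℝ) ^ r :=
            pow_le_pow_of_le_one (by norm_num) (by norm_num) hSr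
        _ ≤ δ := hr.le
    have h6 : (hammingNorm w : ℝ) = (hammingNorm w * 2 ^ S.card) * (1 / 2 : ℝ) ^ S.card := by
      rw [mul_assoc, ← mul_pow]
      norm_num
    rw [h6]
    calc (hammingNorm w * 2 ^ S.card : ℝ) * (1 / 2 : ℝ) ^ S.card
        ≤ (Fintype.card P * Fintype.card J) * (1 / 2 : ℝ) ^ S.card :=
          mul_le_mul_of_nonneg_right h3 (by positivity)
      _ ≤ (Fintype.card P * Fintype.card J) * δ :=
          mul_le_mul_of_nonneg_left h5 (by positivity)
      _ = δ * (Fintype.card P * Fintype.card J) := mul_comm _ _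

end Pool.Agent.Helper243Two
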