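import Pool.Agent.Helper243_Two.Chain

/-!
# Codes over the product of a cyclic 2-group and a group of odd order
-/

set_option autoImplicit false

namespace Pool.Agent.Helper243Two

open Module

theorem cyc (e t : ℕ) (hte : t ≤ e) {Q : Type} [CommGroup Q] [Fintype Q]
    (hQ : Odd (Fintype.card Q)) (C : Submodule (ZMod 2) (Multiplicative (ZMod (2 ^ e)) × Q → ZMod 2))
    (hC : ∀ h, ∀ f ∈ C, (fun x => f (h * x)) ∈ C)
    (hdim : 2 ^ t * Fintype.card Q < finrank (ZMod 2) C) :
    ∃ f ∈ C, f ≠ 0 ∧ hammingNorm f * 2 ^ t ≤ 2 ^ e * Fintype.card Q := by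
  classical
  have hchar : CharP (MonoidAlgebra (ZMod 2) Q) 2 :=
    charP_of_injective_algebraMap (algebraMap (ZMod 2) (MonoidAlgebra (ZMod 2) Q)).injective 2
  -- a word vanishing on the first `2 ^ t` layers
  obtain ⟨f, hf, hf0, hfv⟩ : ∃ f ∈ C, f ≠ 0 ∧ ∀ (z : ZMod (2 ^ e)) (q : Q), z.val < 2 ^ t →
      f (Multiplicative.ofAdd z, q) = 0 := by
    let L : C →ₗ[ZMod 2] (Fin (2 ^ t) × Q → ZMod 2) :=
      { toFun := fun f p => (f : Multiplicative (ZMod (2 ^ e)) × Q → ZMod 2)
          (Multiplicative.ofAdd ((p.1 : ℕ) : ZMod (2 ^ e)), p.2)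
        map_add' := fun f g => rfl
        map_smul' := fun c f => rfl }
    have hker : LinearMap.ker L ≠ ⊥ := by
      apply LinearMap.ker_ne_bot_of_finrank_lt
      rw [Module.finrank_fintype_fun_eq_card, Fintype.card_prod, Fintype.card_fin]
      exact hdim
    obtain ⟨f, hf, hf0⟩ := Submodule.exists_mem_ne_zero_of_ne_bot hker
    refine ⟨f, f.2, fun h => hf0 (Subtype.ext h), fun z q hz => ?_⟩
    rw [LinearMap.mem_ker] at hf
    have h1 := congrFun hf (⟨z.val, hz⟩, q)
    have h2 : L f (⟨z.val, hz⟩, q) = (f : Multiplicative (ZMod (2 ^ e)) × Q → ZMod 2)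
        (Multiplicative.ofAdd ((z.val : ℕ) : ZMod (2 ^ e)), q) := rfl
    rw [h2, ZMod.natCast_zmod_val] at h1
    exact h1
  -- words as functions with values in the group algebra of `Q`
  let un : (ZMod (2 ^ e) → MonoidAlgebra (ZMod 2) Q) → Multiplicative (ZMod (2 ^ e)) × Q → ZMod 2 :=
    fun F x => (F (Multiplicative.toAdd x.1)).coeff x.2
  have hun : ∀ F x, un F x = (F (Multiplicative.toAdd x.1)).coeff x.2 := fun F x => rfl
  have hsmul : ∀ (r : MonoidAlgebra (ZMod 2) Q) (F : ZMod (2 ^ e) → MonoidAlgebra (ZMod 2) Q),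
      un F ∈ C → un (r • F) ∈ C := by
    intro r F hF
    induction r using MonoidAlgebra.induction_linear with
    | zero =>
      have : un ((0 : MonoidAlgebra (ZMod 2) Q) • F) = 0 := by
        funext x
        rw [hun, Pi.smul_apply, smul_eq_mul, zero_mul]
        rfl
      rw [this]
      exact C.zero_mem
    | add r s hr hs =>
      have : un ((r + s) • F) = un (r • F) + un (s • F) := by
        funext x
        rw [hun, Pi.smul_apply, smul_eq_mul, add_mul]
        rfl
      rw [this]
      exact C.add_mem hr hs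
    | single q₀ c =>
      have : un (MonoidAlgebra.single q₀ c • F) = c • fun x => un F ((1, q₀⁻¹) * x) := by
        funext x
        rw [hun, Pi.smul_apply, smul_eq_mul, MonoidAlgebra.coeff_single_mul_apply, Pi.smul_apply,
          hun, smul_eq_mul, Prod.fst_mul, Prod.snd_mul, one_mul]
      rw [this]
      exact C.smul_mem c (hC _ _ hF)
  let W : Submodule (MonoidAlgebra (ZMod 2) Q) (ZMod (2 ^ e) → MonoidAlgebra (ZMod 2) Q) :=
    { carrier := {F | un F ∈ C}
      add_mem' := by
        intro F G hF hG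
        exact C.add_mem hF hG
      zero_mem' := C.zero_mem
      smul_mem' := fun r F hF => hsmul r F hF }
  have hshift : ∀ F ∈ W, (fun z => F (z + 1)) ∈ W := by
    intro F hF
    show un (fun z => F (z + 1)) ∈ C
    have : un (fun z => F (z + 1)) = fun x => un F ((Multiplicative.ofAdd 1, 1) * x) := by
      funext x
      show (F (Multiplicative.toAdd x.1 + 1)).coeff x.2 =
        (F (Multiplicative.toAdd ((Multiplicative.ofAdd 1 : Multiplicative (ZMod (2 ^ e))) * x.1))).coeff
          (1 * x.2)
      rw [one_mul, toAdd_mul, toAdd_ofAdd, add_comm]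
    rw [this]
    exact hC _ _ hF
  let F : ZMod (2 ^ e) → MonoidAlgebra (ZMod 2) Q := fun z =>
    ∑ q : Q, MonoidAlgebra.single q (f (Multiplicative.ofAdd z, q))
  have hFapp : ∀ z q, (F z).coeff q = f (Multiplicative.ofAdd z, q) := by
    intro z q
    show (∑ q' : Q, MonoidAlgebra.single q' (f (Multiplicative.ofAdd z, q')) :
      MonoidAlgebra (ZMod 2) Q).coeff q = _
    rw [MonoidAlgebra.coeff_sum, Finsupp.finsetSum_apply]
    simp only [MonoidAlgebra.coeff_single, Finsupp.single_apply]
    rw [Finset.sum_ite_eq' Finset.univ q]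
    simp
  have hunF : un F = f := by
    funext x
    rw [hun, hFapp]
    rfl
  have hFW : F ∈ W := by
    show un F ∈ C
    rw [hunF]
    exact hf
  have hF0 : F ≠ 0 := by
    intro h
    apply hf0
    rw [← hunF, h]
    rfl
  have hFv : ∀ z : ZMod (2 ^ e), z.val < 2 ^ t → F z = 0 := by
    intro z hz
    ext q
    rw [hFapp, hfv z q hz]
    rfl
  obtain ⟨ε, hε, hεW⟩ := chain (idem hQ) t hte W hshift F hFW hF0 hFv
  refine ⟨un (fun z : ZMod (2 ^ e) => if 2 ^ t ∣ z.val then ε else 0), hεW, ?_, ?_⟩
  · intro h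
    apply hε
    ext q
    have h1 : (if 2 ^ t ∣ (0 : ZMod (2 ^ e)).val then ε else 0 :
      MonoidAlgebra (ZMod 2) Q).coeff q = 0 := congrFun h (Multiplicative.ofAdd 0, q)
    rw [if_pos (by simp)] at h1
    exact h1
  · have h1 : hammingNorm (un (fun z : ZMod (2 ^ e) => if 2 ^ t ∣ z.val then ε else 0)) ≤
        2 ^ (e - t) * Fintype.card Q := by
      have h2 : hammingNorm (un (fun z : ZMod (2 ^ e) => if 2 ^ t ∣ z.val then ε else 0)) ≤
          ((Finset.univ : Finset (Fin (2 ^ (e - t)) × Q))).card := by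
        unfold hammingNorm
        have hlt : ∀ z : ZMod (2 ^ e), z.val / 2 ^ t < 2 ^ (e - t) := by
          intro z
          rw [Nat.div_lt_iff_lt_mul (by positivity), ← pow_add, Nat.sub_add_cancel hte]
          exact ZMod.val_lt z
        refine Finset.card_le_card_of_injOn
          (fun x => (⟨(Multiplicative.toAdd x.1).val / 2 ^ t, hlt _⟩, x.2))
          (fun x _ => Finset.mem_univ _) ?_
        intro x hx y hy hxy
        rw [Finset.mem_coe, Finset.mem_filter] at hx hy
        have hdx : 2 ^ t ∣ (Multiplicative.toAdd x.1).val := by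
          by_contra hcon
          apply hx.2
          show (if 2 ^ t ∣ (Multiplicative.toAdd x.1).val then ε else 0 :
            MonoidAlgebra (ZMod 2) Q).coeff x.2 = 0
          rw [if_neg hcon]
          rfl
        have hdy : 2 ^ t ∣ (Multiplicative.toAdd y.1).val := by
          by_contra hcon
          apply hy.2
          show (if 2 ^ t ∣ (Multiplicative.toAdd y.1).val then ε else 0 :
            MonoidAlgebra (ZMod 2) Q).coeff y.2 = 0
          rw [if_neg hcon]
          rfl
        rw [Prod.mk.injEq, Fin.mk.injEq] at hxy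
        have h3 : (Multiplicative.toAdd x.1).val = (Multiplicative.toAdd y.1).val := by
          rw [← Nat.div_mul_cancel hdx, ← Nat.div_mul_cancel hdy, hxy.1]
        have h4 : Multiplicative.toAdd x.1 = Multiplicative.toAdd y.1 := ZMod.val_injective _ h3
        exact Prod.ext (Multiplicative.toAdd.injective h4) hxy.2
      rwa [Finset.card_univ, Fintype.card_prod, Fintype.card_fin] at h2
    calc _ ≤ (2 ^ (e - t) * Fintype.card Q) * 2 ^ t := Nat.mul_le_mul_right _ h1
      _ = (2 ^ (e - t) * 2 ^ t) * Fintype.card Q := by ring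
      _ = 2 ^ e * Fintype.card Q := by rw [← pow_add, Nat.sub_add_cancel hte]

end Pool.Agent.Helper243Two
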