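import Mathlib

/-!
# Iterated differences of functions on `F_2 ^ n`
-/

set_option autoImplicit false

namespace Pool.Agent.Helper243Two

open Finset Module

variable {n : ℕ} {J : Type}

/-- The indicator vector of a set of coordinates. -/
def ind (S : Finset (Fin n)) : Fin n → ZMod 2 := fun i => if i ∈ S then 1 else 0

/-- The iterated difference of `F` in the directions of the coordinates in `S`. -/
def D (S : Finset (Fin n)) (F : (Fin n → ZMod 2) × J → ZMod 2) (u : Fin n → ZMod 2) (j : J) :
    ZMod 2 := ∑ T ∈ S.powerset, F (u + ind T, j)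

theorem ind_insert {i : Fin n} {T : Finset (Fin n)} (h : i ∉ T) :
    ind (insert i T) = ind {i} + ind T := by
  funext k
  simp only [ind, Finset.mem_insert, Finset.mem_singleton, Pi.add_apply]
  by_cases hk : k = i
  · subst hk
    simp [h]
  · simp [hk]

theorem add_ind_self (u : Fin n → ZMod 2) (T : Finset (Fin n)) : u + ind T + ind T = u := by
  funext k
  simp only [Pi.add_apply, add_assoc, CharTwo.add_self_eq_zero, add_zero]

theorem D_insert {i : Fin n} {S : Finset (Fin n)} (h : i ∉ S)
    (F : (Fin n → ZMod 2) × J → ZMod 2) (u : Fin n → ZMod 2) (j : J) :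
    D (insert i S) F u j = D S F u j + D S F (u + ind {i}) j := by
  unfold D
  rw [Finset.sum_powerset_insert h]
  congr 1
  refine Finset.sum_congr rfl fun T hT => ?_
  have hiT : i ∉ T := fun h1 => h (Finset.mem_powerset.1 hT h1)
  rw [ind_insert hiT, add_assoc]

theorem D_shift_mem {i : Fin n} {S : Finset (Fin n)} (h : i ∈ S)
    (F : (Fin n → ZMod 2) × J → ZMod 2) (u : Fin n → ZMod 2) (j : J) :
    D S F (u + ind {i}) j = D S F u j := by
  rw [← Finset.insert_erase h, D_insert (Finset.notMem_erase i S), D_insert (Finset.notMem_erase i S),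
    add_ind_self, add_comm]

/-- A nonzero function has an iterated difference which is constant and nonzero. -/
theorem exists_top (F : (Fin n → ZMod 2) × J → ZMod 2) (hF : F ≠ 0) :
    ∃ (S : Finset (Fin n)) (c : J → ZMod 2), c ≠ 0 ∧ ∀ u j, D S F u j = c j := by
  classical
  have hne : (Finset.univ.filter fun S : Finset (Fin n) => ∃ u j, D S F u j ≠ 0).Nonempty := by
    refine ⟨∅, ?_⟩
    rw [Finset.mem_filter]
    refine ⟨Finset.mem_univ _, ?_⟩
    by_contra hcon
    push Not at hcon
    apply hF
    funext q
    have h := hcon q.1 q.2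
    simp only [D, Finset.powerset_empty, Finset.sum_singleton] at h
    have h0 : ind (∅ : Finset (Fin n)) = 0 := by
      funext k
      simp [ind]
    rw [h0, add_zero] at h
    exact h
  obtain ⟨S, hS, hmax⟩ := Finset.exists_max_image _ Finset.card hne
  rw [Finset.mem_filter] at hS
  have hshift : ∀ i u j, D S F (u + ind {i}) j = D S F u j := by
    intro i u j
    by_cases hi : i ∈ S
    · exact D_shift_mem hi F u j
    · have h1 : D (insert i S) F u j = 0 := by
        by_contra hcon
        have h2 := hmax (insert i S) (by
          rw [Finset.mem_filter]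
          exact ⟨Finset.mem_univ _, u, j, hcon⟩)
        rw [Finset.card_insert_of_notMem hi] at h2
        omega
      rw [D_insert hi] at h1
      exact (CharTwo.add_eq_zero.1 h1).symm
  have hconst : ∀ U : Finset (Fin n), ∀ j, D S F (ind U) j = D S F 0 j := by
    intro U j
    induction U using Finset.induction_on with
    | empty =>
      have h0 : ind (∅ : Finset (Fin n)) = 0 := by
        funext k
        simp [ind]
      rw [h0]
    | insert i U hi ih => rw [ind_insert hi, add_comm, hshift, ih]
  have hall : ∀ u j, D S F u j = D S F 0 j := by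
    intro u j
    have hu : u = ind (Finset.univ.filter fun i => u i = 1) := by
      funext k
      simp only [ind, Finset.mem_filter, Finset.mem_univ, true_and]
      have : ∀ z : ZMod 2, z = if z = 1 then 1 else 0 := by decide
      exact this (u k)
    rw [hu]
    exact hconst _ j
  refine ⟨S, fun j => D S F 0 j, ?_, hall⟩
  intro h0
  obtain ⟨u, j, huj⟩ := hS.2
  apply huj
  rw [hall]
  exact congrFun h0 j

/-- Replacing coordinates in `S` of `u` by those of `v` in all possible ways. -/
theorem alt (S : Finset (Fin n)) (F : (Fin n → ZMod 2) × J → ZMod 2) (u v : Fin n → ZMod 2) (j : J) :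
    ∑ T ∈ S.powerset, F (fun i => if i ∈ T then v i else u i, j) =
      if ∀ i ∈ S, u i ≠ v i then D S F u j else 0 := by
  split_ifs with h
  · unfold D
    refine Finset.sum_congr rfl fun T hT => ?_
    congr 2
    funext i
    simp only [Pi.add_apply, ind]
    by_cases hi : i ∈ T
    · have h1 := h i (Finset.mem_powerset.1 hT hi)
      simp only [hi, if_true]
      have : ∀ a b : ZMod 2, a ≠ b → b = a + 1 := by decide
      exact this _ _ h1
    · simp [hi]
  · push Not at h
    obtain ⟨i, hi, huv⟩ := h
    have hi' : i ∉ S.erase i := Finset.notMem_erase i S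
    rw [← Finset.insert_erase hi, Finset.sum_powerset_insert hi', ← Finset.sum_add_distrib]
    refine Finset.sum_eq_zero fun T hT => ?_
    have hiT : i ∉ T := fun h1 => hi' (Finset.mem_powerset.1 hT h1)
    have : (fun k => if k ∈ insert i T then v k else u k) = fun k => if k ∈ T then v k else u k := by
      funext k
      by_cases hk : k = i
      · subst hk
        simp [hiT, huv]
      · simp [hk]
    rw [this]
    exact CharTwo.add_self_eq_zero _

/-- In a large space of functions there is a nonzero one all of whose differences of order less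
than `r` vanish at `0`. -/
theorem exists_high [Fintype J] (r : ℕ) (W : Submodule (ZMod 2) ((Fin n → ZMod 2) × J → ZMod 2))
    (hW : Fintype.card {S : Finset (Fin n) // S.card < r} * Fintype.card J < finrank (ZMod 2) W) :
    ∃ F ∈ W, F ≠ 0 ∧ ∀ S : Finset (Fin n), S.card < r → ∀ j, D S F 0 j = 0 := by
  classical
  let L : W →ₗ[ZMod 2] ({S : Finset (Fin n) // S.card < r} × J → ZMod 2) :=
    { toFun := fun F q => D q.1 (F : (Fin n → ZMod 2) × J → ZMod 2) 0 q.2
      map_add' := by
        intro F G
        funext q
        simp only [D, Submodule.coe_add, Pi.add_apply, Finset.sum_add_distrib]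
      map_smul' := by
        intro c F
        funext q
        simp only [D, Submodule.coe_smul, Pi.smul_apply, smul_eq_mul, Finset.mul_sum,
          RingHom.id_apply] }
  have hker : LinearMap.ker L ≠ ⊥ := by
    apply LinearMap.ker_ne_bot_of_finrank_lt
    rw [Module.finrank_fintype_fun_eq_card, Fintype.card_prod]
    exact hW
  obtain ⟨F, hF, hF0⟩ := Submodule.exists_mem_ne_zero_of_ne_bot hker
  refine ⟨F, F.2, fun h => hF0 (Subtype.ext h), fun S hS j => ?_⟩
  rw [LinearMap.mem_ker] at hF
  exact congrFun hF (⟨S, hS⟩, j)

/-- Few subsets have fewer than `r` elements. -/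
theorem few (r : ℕ) (ρ : ℝ) (hρ : 0 < ρ) :
    ∃ n : ℕ, (Fintype.card {S : Finset (Fin n) // S.card < r} : ℝ) < ρ * 2 ^ n := by
  have hcount : ∀ n : ℕ, 1 ≤ n →
      Fintype.card {S : Finset (Fin n) // S.card < r} ≤ r * n ^ r := by
    intro n hn
    classical
    rw [Fintype.card_subtype]
    calc (Finset.univ.filter fun S : Finset (Fin n) => S.card < r).card
        ≤ ((Finset.range r).biUnion fun i => Finset.powersetCard i Finset.univ).card := by
          refine Finset.card_le_card fun S hS => ?_
          rw [Finset.mem_filter] at hS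
          rw [Finset.mem_biUnion]
          exact ⟨S.card, Finset.mem_range.2 hS.2,
            Finset.mem_powersetCard.2 ⟨Finset.subset_univ _, rfl⟩⟩
      _ ≤ ∑ i ∈ Finset.range r, (Finset.powersetCard i (Finset.univ : Finset (Fin n))).card :=
          Finset.card_biUnion_le
      _ ≤ ∑ i ∈ Finset.range r, n ^ r := by
          refine Finset.sum_le_sum fun i hi => ?_
          rw [Finset.card_powersetCard, Finset.card_univ, Fintype.card_fin]
          calc n.choose i ≤ n ^ i := Nat.choose_le_pow n i
            _ ≤ n ^ r := Nat.pow_le_pow_right hn (Finset.mem_range.1 hi).le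
      _ = r * n ^ r := by rw [Finset.sum_const, Finset.card_range, smul_eq_mul]
  have ht := (tendsto_pow_const_div_const_pow_of_one_lt r (r := (2 : ℝ)) one_lt_two).const_mul (r : ℝ)
  rw [mul_zero] at ht
  have hev := (ht.eventually (gt_mem_nhds hρ)).and (Filter.eventually_ge_atTop 1)
  obtain ⟨n, hn, hn1⟩ := hev.exists
  refine ⟨n, ?_⟩
  have h1 : (Fintype.card {S : Finset (Fin n) // S.card < r} : ℝ) ≤ r * (n : ℝ) ^ r := by
    exact_mod_cast hcount n hn1
  have h2 : (0 : ℝ) < 2 ^ n := by positivity
  have h3 : (r : ℝ) * ((n : ℝ) ^ r / 2 ^ n) * 2 ^ n < ρ * 2 ^ n := by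
    exact mul_lt_mul_of_pos_right hn h2
  rw [mul_assoc, div_mul_cancel₀ _ h2.ne'] at h3
  exact lt_of_le_of_lt h1 h3

end Pool.Agent.Helper243Two
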