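import Mathlib

/-!
# Fixed vectors of a 2-group in characteristic two

If a finite 2-group `K` acts linearly on a finite-dimensional space over the field with two elements,
the dimension of the space is at most `|K|` times the dimension of the space of fixed vectors.
-/

set_option autoImplicit false

namespace Pool.Agent.Helper243Two

open Module

variable {K : Type} [Group K] [Finite K] {V : Type} [AddCommGroup V] [Module (ZMod 2) V]
  [Module.Finite (ZMod 2) V]

/-- The fixed vectors. -/
def fixedVec (T : K →* Module.End (ZMod 2) V) : Submodule (ZMod 2) V where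
  carrier := {v | ∀ k, T k v = v}
  add_mem' := by
    intro a b ha hb k
    rw [map_add, ha k, hb k]
  zero_mem' := fun k => map_zero _
  smul_mem' := by
    intro c a ha k
    rw [map_smul, ha k]

theorem mem_fixedVec {T : K →* Module.End (ZMod 2) V} {v : V} :
    v ∈ fixedVec T ↔ ∀ k, T k v = v := Iff.rfl

/-- A nonzero invariant subspace contains a nonzero fixed vector. -/
theorem exists_fixed (hK : IsPGroup 2 K) (T : K →* Module.End (ZMod 2) V)
    (N : Submodule (ZMod 2) V) (hN : ∀ k, ∀ v ∈ N, T k v ∈ N) (hne : N ≠ ⊥) :
    ∃ v ∈ N, v ≠ 0 ∧ ∀ k, T k v = v := by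
  have : Finite V := Module.finite_of_finite (ZMod 2)
  let act : MulAction K N :=
    { smul := fun k v => ⟨T k v, hN k v v.2⟩
      one_smul := by
        intro v
        apply Subtype.ext
        show T 1 (v : V) = v
        rw [map_one]
        rfl
      mul_smul := by
        intro a b v
        apply Subtype.ext
        show T (a * b) (v : V) = T a (T b v)
        rw [map_mul]
        rfl }
  have hfact : Fact (Nat.Prime 2) := ⟨Nat.prime_two⟩
  have hcard : 2 ∣ Nat.card N := by
    have h1 : 0 < finrank (ZMod 2) N := by
      have : Nontrivial N := (Submodule.nontrivial_iff_ne_bot).2 hne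
      exact finrank_pos
    rw [Module.natCard_eq_pow_finrank (K := ZMod 2) (V := N), Nat.card_zmod]
    exact dvd_pow_self 2 h1.ne'
  have h0 : (0 : N) ∈ MulAction.fixedPoints K N := by
    intro k
    apply Subtype.ext
    show T k (0 : V) = 0
    exact map_zero _
  obtain ⟨b, hb, hb0⟩ := hK.exists_fixed_point_of_prime_dvd_card_of_fixed_point N hcard h0
  refine ⟨b, b.2, fun h => hb0 (Subtype.ext h).symm, fun k => ?_⟩
  exact congrArg Subtype.val (hb k)

theorem finrank_le_fixed (hK : IsPGroup 2 K) (T : K →* Module.End (ZMod 2) V) :
    finrank (ZMod 2) V ≤ Nat.card K * finrank (ZMod 2) (fixedVec T) := by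
  classical
  have : Fintype K := Fintype.ofFinite K
  obtain ⟨l, hl⟩ := LinearMap.exists_leftInverse_of_injective (fixedVec T).subtype
    (Submodule.ker_subtype _)
  -- the map into the functions on `K`
  let L : V →ₗ[ZMod 2] (K → fixedVec T) :=
    LinearMap.pi fun k => l ∘ₗ (T k)
  have hL : ∀ v k, L v k = l (T k v) := fun v k => rfl
  have hinj : LinearMap.ker L = ⊥ := by
    by_contra hne
    obtain ⟨v, hv, hv0, hfix⟩ := exists_fixed hK T (LinearMap.ker L) (by
      intro h v hv
      rw [LinearMap.mem_ker] at hv ⊢
      funext k
      rw [hL]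
      have h1 : T k (T h v) = T (k * h) v := by rw [map_mul]; rfl
      rw [h1, ← hL, hv]
      rfl) hne
    apply hv0
    have h1 : L v 1 = 0 := by
      rw [LinearMap.mem_ker] at hv
      rw [hv]
      rfl
    rw [hL, hfix 1] at h1
    have h2 := congrArg (fun f => f ⟨v, hfix⟩) hl
    simp only [LinearMap.comp_apply, Submodule.subtype_apply, LinearMap.id_apply] at h2
    rw [h1] at h2
    exact (congrArg Subtype.val h2).symm
  have h := LinearMap.finrank_le_finrank_of_injective (LinearMap.ker_eq_bot.1 hinj)
  rw [Module.finrank_pi_fintype] at h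
  simpa [Finset.sum_const, Nat.card_eq_fintype_card] using h

end Pool.Agent.Helper243Two
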