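import Pool.Agent.Helper243_Two.Core

/-!
# Free actions of 2-groups
-/

set_option autoImplicit false

namespace Pool.Agent.Helper243Two

open Finset Module

/-- The weight does not depend on the names of the coordinates. -/
theorem hammingNorm_comp {X Y : Type} [Fintype X] [Fintype Y] (e : Y ≃ X) (f : X → ZMod 2) :
    hammingNorm (fun y => f (e y)) = hammingNorm f := by
  classical
  unfold hammingNorm
  refine Finset.card_bij (fun y _ => e y) ?_ ?_ ?_
  · intro y hy
    rw [Finset.mem_filter] at hy ⊢
    exact ⟨Finset.mem_univ _, hy.2⟩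
  · intro y _ z _ h
    exact e.injective h
  · intro x hx
    rw [Finset.mem_filter] at hx
    refine ⟨e.symm x, ?_, e.apply_symm_apply x⟩
    rw [Finset.mem_filter]
    refine ⟨Finset.mem_univ _, ?_⟩
    show f (e (e.symm x)) ≠ 0
    rw [e.apply_symm_apply]
    exact hx.2

/-- A set with a free action is a product of the group and the set of orbits. -/
theorem exists_equiv (P X : Type) [Group P] [MulAction P X]
    (hfree : ∀ (g : P) (x : X), g • x = x → g = 1) :
    ∃ e : P × MulAction.orbitRel.Quotient P X ≃ X, ∀ h g j, e (h * g, j) = h • e (g, j) := by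
  classical
  let r : MulAction.orbitRel.Quotient P X → X := fun j => Quotient.out j
  have hr : ∀ j, (Quotient.mk'' (r j) : MulAction.orbitRel.Quotient P X) = j :=
    fun j => Quotient.out_eq' j
  let f : P × MulAction.orbitRel.Quotient P X → X := fun q => q.1 • r q.2
  have hf : Function.Bijective f := by
    constructor
    · rintro ⟨g, j⟩ ⟨g', j'⟩ h
      have h' : g • r j = g' • r j' := h
      have hj : j = j' := by
        rw [← hr j, ← hr j']
        apply Quotient.sound'
        rw [MulAction.orbitRel_apply]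
        refine ⟨g⁻¹ * g', ?_⟩
        show (g⁻¹ * g') • r j' = r j
        rw [mul_smul, ← h', inv_smul_smul]
      subst hj
      have h2 : (g'⁻¹ * g) • r j = r j := by rw [mul_smul, h', inv_smul_smul]
      have h3 := hfree _ _ h2
      rw [inv_mul_eq_one] at h3
      rw [h3]
    · intro x
      have h1 : (Quotient.mk'' (r (Quotient.mk'' x)) : MulAction.orbitRel.Quotient P X) =
          Quotient.mk'' x := hr _
      have h2 := Quotient.exact' h1
      rw [MulAction.orbitRel_apply] at h2
      obtain ⟨g, hg⟩ := h2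
      have hg' : g • x = r (Quotient.mk'' x) := hg
      refine ⟨(g⁻¹, Quotient.mk'' x), ?_⟩
      show g⁻¹ • r (Quotient.mk'' x) = x
      rw [← hg', inv_smul_smul]
  refine ⟨Equiv.ofBijective f hf, fun h g j => ?_⟩
  show (h * g) • r j = h • g • r j
  rw [mul_smul]

theorem two_groups (ℓ : ℕ) (ρ δ : ℝ) (hρ : 0 < ρ) (hδ : 0 < δ) :
    ∃ m₀ : ℕ, ∀ (P X : Type) [Group P] [Finite P] [Fintype X] [Nonempty X] [MulAction P X],
      IsPGroup 2 P → (∀ (g : P) (x : X), g • x = x → g = 1) →
      Nat.card (MulAction.orbitRel.Quotient P X) ≤ ℓ →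
      ∀ (d : ℕ) (φ : P →* Multiplicative (Fin d → ZMod 2)), m₀ ≤ d → Function.Surjective φ →
      ∀ C : Submodule (ZMod 2) (X → ZMod 2), (∀ g : P, ∀ f ∈ C, (fun x => f (g • x)) ∈ C) →
        ρ * Fintype.card X ≤ finrank (ZMod 2) C →
        ∃ f ∈ C, f ≠ 0 ∧ (hammingNorm f : ℝ) ≤ δ * Fintype.card X := by
  classical
  obtain ⟨m₀, hm⟩ := core ℓ ρ δ hρ hδ
  refine ⟨m₀, ?_⟩
  intro P X _ _ _ _ _ hP hfree hℓ d φ hd hφ C hC hdim
  have : Fintype P := Fintype.ofFinite P
  have : Finite (MulAction.orbitRel.Quotient P X) := Quotient.finite _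
  have : Fintype (MulAction.orbitRel.Quotient P X) := Fintype.ofFinite _
  have : Nonempty (MulAction.orbitRel.Quotient P X) :=
    ⟨Quotient.mk'' (Classical.arbitrary X)⟩
  obtain ⟨e, he⟩ := exists_equiv P X hfree
  have hcard : Fintype.card X = Fintype.card P * Fintype.card (MulAction.orbitRel.Quotient P X) := by
    rw [← Fintype.card_prod, Fintype.card_congr e]
  let E := LinearEquiv.funCongrLeft (ZMod 2) (ZMod 2) e
  have hE : ∀ f q, E f q = f (e q) := fun f q => rfl
  rw [Nat.card_eq_fintype_card] at hℓ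
  obtain ⟨w, hw, hw0, hwt⟩ := hm P (MulAction.orbitRel.Quotient P X) hP hℓ d φ hd hφ
    (C.map E.toLinearMap) (by
      rintro h _ ⟨f, hf, rfl⟩
      refine ⟨fun x => f (h • x), hC h f hf, ?_⟩
      funext q
      show f (h • e q) = f (e (h * q.1, q.2))
      rw [he]) (by
      have h0 : finrank (ZMod 2) (C.map E.toLinearMap) = finrank (ZMod 2) C :=
        LinearEquiv.finrank_map_eq E C
      rw [h0]
      rw [hcard] at hdim
      push_cast at hdim
      exact hdim)
  obtain ⟨f, hf, rfl⟩ := hw
  refine ⟨f, hf, fun h => hw0 (by rw [h]; exact map_zero _), ?_⟩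
  have h1 : hammingNorm (E.toLinearMap f) = hammingNorm f := hammingNorm_comp e f
  rw [h1] at hwt
  rw [hcard]
  push_cast
  exact hwt

end Pool.Agent.Helper243Two
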