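import Pool.Agent.Helper243_Two.Quasi

/-!
# Reduction modulo a normal 2-subgroup, several orbits
-/

set_option autoImplicit false

namespace Pool.Agent.Helper243Two

open Finset Module Pool.Agent.Helper243Abel

variable {A B J : Type} [Group A] [Fintype A] [Group B] [Fintype B] [Fintype J]

/-- Pulling back functions along a homomorphism. -/
def pbJ (J : Type) (π : A →* B) : (B × J → ZMod 2) →ₗ[ZMod 2] (A × J → ZMod 2) :=
  LinearMap.funLeft (ZMod 2) (ZMod 2) fun q : A × J => (π q.1, q.2)

omit [Fintype A] [Fintype B] [Fintype J] in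
theorem pbJ_apply (π : A →* B) (f : B × J → ZMod 2) (q : A × J) :
    pbJ J π f q = f (π q.1, q.2) := rfl

theorem finrank_le_pbJ (π : A →* B) (hπ : Function.Surjective π) (hker : IsPGroup 2 π.ker)
    {C : Submodule (ZMod 2) (A × J → ZMod 2)}
    (hC : ∀ h : A, ∀ f ∈ C, (fun q : A × J => f (h * q.1, q.2)) ∈ C) :
    finrank (ZMod 2) C * Fintype.card B ≤
      Fintype.card A * finrank (ZMod 2) (C.comap (pbJ J π)) := by
  classical
  let K : Subgroup A := π.ker
  let T : K →* Module.End (ZMod 2) C :=
    { toFun := fun k =>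
        { toFun := fun f => ⟨fun q => (f : A × J → ZMod 2) ((k : A)⁻¹ * q.1, q.2), hC _ f f.2⟩
          map_add' := fun f g => rfl
          map_smul' := fun c f => rfl }
      map_one' := by
        ext f q
        simp
      map_mul' := by
        intro k h
        ext f q
        simp [mul_assoc] }
  have hT : ∀ (k : K) (f : C) (q : A × J),
      ((T k f : C) : A × J → ZMod 2) q = (f : A × J → ZMod 2) ((k : A)⁻¹ * q.1, q.2) :=
    fun k f q => rfl
  have h1 := finrank_le_fixed hker T
  have h2 : (fixedVec T).map C.subtype ≤ (C.comap (pbJ J π)).map (pbJ J π) := by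
    rintro _ ⟨f, hf, rfl⟩
    have hfix : ∀ k ∈ K, ∀ q : A × J,
        (f : A × J → ZMod 2) (k * q.1, q.2) = (f : A × J → ZMod 2) q := by
      intro k hk q
      have h3 := congrArg (fun v : C => (v : A × J → ZMod 2) (k * q.1, q.2)) (hf ⟨k, hk⟩)
      simp only [hT, inv_mul_cancel_left] at h3
      exact h3.symm
    let F : B × J → ZMod 2 := fun v => (f : A × J → ZMod 2) (Function.surjInv hπ v.1, v.2)
    have hF : pbJ J π F = (f : A × J → ZMod 2) := by
      funext q
      show (f : A × J → ZMod 2) (Function.surjInv hπ (π q.1), q.2) = _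
      have h4 : Function.surjInv hπ (π q.1) * q.1⁻¹ ∈ K := by
        rw [MonoidHom.mem_ker, map_mul, map_inv, Function.surjInv_eq hπ, mul_inv_cancel]
      have h5 := hfix _ h4 q
      rw [inv_mul_cancel_right] at h5
      exact h5
    refine ⟨F, ?_, hF⟩
    show pbJ J π F ∈ C
    rw [hF]
    exact f.2
  have h3 : finrank (ZMod 2) (fixedVec T) ≤ finrank (ZMod 2) (C.comap (pbJ J π)) := by
    rw [← Submodule.finrank_map_subtype_eq C (fixedVec T)]
    exact (Submodule.finrank_mono h2).trans (Submodule.finrank_map_le _ _)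
  have h4 : Nat.card A = Nat.card B * Nat.card K := by
    have h5 := Subgroup.card_eq_card_quotient_mul_card_subgroup K
    have h6 : Nat.card (A ⧸ K) = Nat.card B :=
      Nat.card_congr (QuotientGroup.quotientKerEquivOfSurjective _ hπ).toEquiv
    rw [h5, h6]
  rw [Nat.card_eq_fintype_card, Nat.card_eq_fintype_card] at h4
  calc finrank (ZMod 2) C * Fintype.card B
      ≤ (Nat.card K * finrank (ZMod 2) (fixedVec T)) * Fintype.card B :=
        Nat.mul_le_mul_right _ h1
    _ ≤ (Nat.card K * finrank (ZMod 2) (C.comap (pbJ J π))) * Fintype.card B :=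
        Nat.mul_le_mul_right _ (Nat.mul_le_mul_left _ h3)
    _ = Fintype.card A * finrank (ZMod 2) (C.comap (pbJ J π)) := by rw [h4]; ring

theorem hammingNorm_pbJ (π : A →* B) (hπ : Function.Surjective π) (f : B × J → ZMod 2) :
    hammingNorm (pbJ J π f) * Fintype.card B = Fintype.card A * hammingNorm f := by
  classical
  have h0 : ∀ b : B × J, (Finset.univ.filter fun q : A × J => (π q.1, q.2) = b).card =
      (Finset.univ.filter fun a : A => π a = b.1).card := by
    intro b
    refine Finset.card_bij (fun q _ => q.1) ?_ ?_ ?_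
    · intro q hq
      rw [Finset.mem_filter] at hq ⊢
      exact ⟨Finset.mem_univ _, congrArg Prod.fst hq.2⟩
    · intro q hq q' hq' h
      rw [Finset.mem_filter] at hq hq'
      have h1 := congrArg Prod.snd hq.2
      have h2 := congrArg Prod.snd hq'.2
      exact Prod.ext h (h1.trans h2.symm)
    · intro a ha
      rw [Finset.mem_filter] at ha
      refine ⟨(a, b.2), ?_, rfl⟩
      rw [Finset.mem_filter]
      exact ⟨Finset.mem_univ _, Prod.ext ha.2 rfl⟩
  have h1 : hammingNorm (pbJ J π f) =
      ∑ b ∈ Finset.univ.filter (fun b => f b ≠ 0), (Finset.univ.filter fun a => π a = b.1).card := by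
    unfold hammingNorm
    rw [Finset.card_eq_sum_card_fiberwise (f := fun q : A × J => (π q.1, q.2))
      (t := Finset.univ.filter fun b => f b ≠ 0)]
    · refine Finset.sum_congr rfl fun b hb => ?_
      rw [Finset.mem_filter] at hb
      rw [← h0 b]
      congr 1
      ext a
      simp only [Finset.mem_filter, Finset.mem_univ, true_and, pbJ_apply]
      constructor
      · exact fun h => h.2
      · intro h
        exact ⟨by rw [h]; exact hb.2, h⟩
    · intro a ha
      rw [Finset.mem_coe, Finset.mem_filter] at ha ⊢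
      exact ⟨Finset.mem_univ _, ha.2⟩
  rw [h1, Finset.sum_mul, Finset.sum_congr rfl fun b _ => card_fiber π hπ b.1, Finset.sum_const,
    smul_eq_mul, mul_comm]
  rfl

/-- Group codes and smooth quotients. -/
theorem ext_free (e ℓ : ℕ) (he : 0 < e) (ρ δ : ℝ) (hρ : 0 < ρ) (hδ : 0 < δ) :
    ∃ n₀ : ℕ, ∀ (G A X : Type) [Group G] [Finite G] [CommGroup A] [Finite A] [Fintype X]
      [Nonempty X] [MulAction G X] (π : G →* A), Function.Surjective π → IsPGroup 2 π.ker →
      (∀ a : A, a ^ e = 1) → (∀ (g : G) (x : X), g • x = x → g = 1) →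
      Nat.card (MulAction.orbitRel.Quotient G X) ≤ ℓ →
      n₀ ≤ Nat.card A →
      ∀ C : Submodule (ZMod 2) (X → ZMod 2), (∀ g : G, ∀ f ∈ C, (fun x => f (g • x)) ∈ C) →
        ρ * Fintype.card X ≤ finrank (ZMod 2) C →
        ∃ f ∈ C, f ≠ 0 ∧ (hammingNorm f : ℝ) ≤ δ * Fintype.card X := by
  classical
  obtain ⟨n₁, h₁⟩ := quasi e ℓ he ρ δ hρ hδ
  refine ⟨n₁, ?_⟩
  intro G A X _ _ _ _ _ _ _ π hπ hker hexp hfree hℓ hn C hC hdim
  have : Fintype G := Fintype.ofFinite G
  have : Fintype A := Fintype.ofFinite A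
  have : Finite (MulAction.orbitRel.Quotient G X) := Quotient.finite _
  obtain ⟨J, hJ⟩ : ∃ J, J = MulAction.orbitRel.Quotient G X := ⟨_, rfl⟩
  have hJfin : Fintype J := hJ ▸ Fintype.ofFinite _
  have hJne : Nonempty J := hJ ▸ ⟨Quotient.mk'' (Classical.arbitrary X)⟩
  obtain ⟨E0, hE0⟩ := exists_equiv G X hfree
  obtain ⟨E, hE⟩ : ∃ E : G × J ≃ X, ∀ h g j, E (h * g, j) = h • E (g, j) := by
    subst hJ
    exact ⟨E0, hE0⟩
  have hJℓ : Fintype.card J ≤ ℓ := by
    rw [← Nat.card_eq_fintype_card, hJ]
    exact hℓ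
  have hcardX : Fintype.card X = Fintype.card G * Fintype.card J := by
    rw [← Fintype.card_prod, Fintype.card_congr E]
  have hG0 : (0 : ℝ) < Fintype.card G := by exact_mod_cast Fintype.card_pos
  have hA0 : (0 : ℝ) < Fintype.card A := by exact_mod_cast Fintype.card_pos
  have hJ0 : 0 < Fintype.card J := Fintype.card_pos
  -- the code on `G × J`
  let L := LinearEquiv.funCongrLeft (ZMod 2) (ZMod 2) E
  let C₁ : Submodule (ZMod 2) (G × J → ZMod 2) := C.map L.toLinearMap
  have hC₁ : ∀ h : G, ∀ f ∈ C₁, (fun q : G × J => f (h * q.1, q.2)) ∈ C₁ := by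
    rintro h _ ⟨f, hf, rfl⟩
    refine ⟨fun x => f (h • x), hC h f hf, ?_⟩
    funext q
    show f (h • E q) = f (E (h * q.1, q.2))
    rw [hE]
  have hfin₁ : finrank (ZMod 2) C₁ = finrank (ZMod 2) C := LinearEquiv.finrank_map_eq L C
  -- the code on `A × J`
  let act : MulAction A (A × J) :=
    { smul := fun a q => (a * q.1, q.2)
      one_smul := fun q => Prod.ext (one_mul _) rfl
      mul_smul := fun a b q => Prod.ext (mul_assoc _ _ _) rfl }
  have hact : ∀ (a : A) (q : A × J), a • q = (a * q.1, q.2) := fun a q => rfl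
  have hfreeA : ∀ (a : A) (q : A × J), a • q = q → a = 1 := by
    intro a q h
    have h1 : a * q.1 = q.1 := congrArg Prod.fst h
    exact mul_eq_right.1 h1
  have hcardA := card_free A (A × J) hfreeA
  have horb : Nat.card (MulAction.orbitRel.Quotient A (A × J)) ≤ ℓ := by
    rw [Fintype.card_prod, Nat.card_eq_fintype_card] at hcardA
    have h1 := Nat.eq_of_mul_eq_mul_left Fintype.card_pos hcardA
    rw [← h1]
    exact hJℓ
  obtain ⟨f, hf, hf0, hw⟩ := h₁ A (A × J) hexp hfreeA horb (by
      rw [Fintype.card_prod]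
      rw [Nat.card_eq_fintype_card] at hn
      calc n₁ ≤ Fintype.card A * 1 := by rw [mul_one]; exact hn
        _ ≤ _ := Nat.mul_le_mul_left _ hJ0) (C₁.comap (pbJ J π)) (by
      intro a f hf
      obtain ⟨g, rfl⟩ := hπ a
      show pbJ J π (fun q => f (π g • q)) ∈ C₁
      have h1 : pbJ J π (fun q => f (π g • q)) =
          fun q : G × J => (pbJ J π f) (g * q.1, q.2) := by
        funext q
        rw [pbJ_apply, pbJ_apply, hact, map_mul]
      rw [h1]
      exact hC₁ g _ hf) (by
      have h1 := finrank_le_pbJ π hπ hker hC₁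
      rw [hfin₁] at h1
      have h2 : (finrank (ZMod 2) C : ℝ) * Fintype.card A ≤
          Fintype.card G * finrank (ZMod 2) (C₁.comap (pbJ J π)) := by exact_mod_cast h1
      refine le_of_mul_le_mul_left ?_ hG0
      rw [hcardX] at hdim
      push_cast at hdim
      rw [Fintype.card_prod]
      push_cast
      calc (Fintype.card G : ℝ) * (ρ * (Fintype.card A * Fintype.card J)) =
          (ρ * (Fintype.card G * Fintype.card J)) * Fintype.card A := by ring
        _ ≤ finrank (ZMod 2) C * Fintype.card A := mul_le_mul_of_nonneg_right hdim hA0.le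
        _ ≤ _ := h2)
  obtain ⟨w, hwC, hwL⟩ : ∃ w ∈ C, L w = pbJ J π f := by
    have hf' : pbJ J π f ∈ C₁ := hf
    obtain ⟨w, hw1, hw2⟩ := hf'
    exact ⟨w, hw1, hw2⟩
  refine ⟨w, hwC, ?_, ?_⟩
  · intro h
    apply hf0
    funext q
    obtain ⟨g, hg⟩ := hπ q.1
    have h1 : pbJ J π f (g, q.2) = 0 := by
      rw [← hwL, h, map_zero]
      rfl
    rw [pbJ_apply, hg] at h1
    exact h1
  · have h1 : (hammingNorm (pbJ J π f) : ℝ) * Fintype.card A = Fintype.card G * hammingNorm f := by
      exact_mod_cast hammingNorm_pbJ π hπ f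
    have h2 : hammingNorm (pbJ J π f) = hammingNorm w := by
      rw [← hwL]
      exact hammingNorm_comp E w
    rw [h2] at h1
    refine le_of_mul_le_mul_right ?_ hA0
    rw [h1, hcardX]
    rw [Fintype.card_prod] at hw
    push_cast at hw ⊢
    calc (Fintype.card G : ℝ) * hammingNorm f ≤
        Fintype.card G * (δ * (Fintype.card A * Fintype.card J)) :=
          mul_le_mul_of_nonneg_left hw hG0.le
      _ = δ * (Fintype.card G * Fintype.card J) * Fintype.card A := by ring

end Pool.Agent.Helper243Two
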