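import Mathlib

/-!
# The number of generators of a finite 2-group

A finite 2-group `P` has an elementary abelian quotient of order `2 ^ d`, where `d` is the minimal
number of generators of `P` (Burnside's basis theorem).
-/

set_option autoImplicit false

namespace Pool.Agent.Helper243Two

/-- A maximal subgroup of a finite 2-group is the kernel of a homomorphism onto a group of
order two. -/
theorem exists_hom_of_coatom {P : Type} [Group P] [Finite P] (hP : IsPGroup 2 P) (M : Subgroup P)
    (hM : IsCoatom M) :
    ∃ χ : P →* Multiplicative (ZMod 2), Function.Surjective χ ∧ χ.ker = M := by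
  classical
  have hfact : Fact (Nat.Prime 2) := ⟨Nat.prime_two⟩
  have hnil : Group.IsNilpotent P := hP.isNilpotent
  have hnormal : M.Normal :=
    (Group.isNilpotent_of_finite_tfae.out 0 2 rfl rfl).1 hnil M hM
  have hQ : IsPGroup 2 (P ⧸ M) := hP.to_quotient M
  have hnt : Nontrivial (P ⧸ M) := by
    rw [QuotientGroup.nontrivial_iff]
    exact hM.1
  -- an element of order two
  obtain ⟨k, hk⟩ := (IsPGroup.iff_card).1 hQ
  have hk0 : k ≠ 0 := by
    rintro rfl
    rw [pow_zero] at hk
    have := Finite.one_lt_card (α := P ⧸ M)
    omega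
  have hdvd : 2 ∣ Nat.card (P ⧸ M) := hk ▸ dvd_pow_self 2 hk0
  obtain ⟨x, hx⟩ := exists_prime_orderOf_dvd_card' (G := P ⧸ M) 2 hdvd
  -- its preimage is everything
  have htop : (Subgroup.zpowers x).comap (QuotientGroup.mk' M) = ⊤ := by
    apply hM.2
    refine lt_of_le_of_ne ?_ ?_
    · intro g hg
      rw [Subgroup.mem_comap, QuotientGroup.mk'_apply, (QuotientGroup.eq_one_iff g).2 hg]
      exact Subgroup.one_mem _
    · intro h
      obtain ⟨g, rfl⟩ := QuotientGroup.mk'_surjective M x
      have h1 : g ∈ (Subgroup.zpowers (QuotientGroup.mk' M g)).comap (QuotientGroup.mk' M) :=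
        Subgroup.mem_zpowers _
      rw [← h] at h1
      have h2 : QuotientGroup.mk' M g = 1 := (QuotientGroup.eq_one_iff g).2 h1
      rw [h2, orderOf_one] at hx
      omega
  have hcard : Nat.card (P ⧸ M) = 2 := by
    have h1 : Subgroup.zpowers x = ⊤ := by
      rw [eq_top_iff]
      intro y _
      obtain ⟨g, rfl⟩ := QuotientGroup.mk'_surjective M y
      have : g ∈ (Subgroup.zpowers x).comap (QuotientGroup.mk' M) := by
        rw [htop]
        exact Subgroup.mem_top _
      exact this
    rw [← Subgroup.card_top, ← h1, Nat.card_zpowers, hx]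
  have hcard' : Nat.card (Multiplicative (ZMod 2)) = 2 := by
    rw [Nat.card_congr Multiplicative.toAdd, Nat.card_zmod]
  let e : (P ⧸ M) ≃* Multiplicative (ZMod 2) := mulEquivOfPrimeCardEq hcard hcard'
  refine ⟨e.toMonoidHom.comp (QuotientGroup.mk' M),
    e.surjective.comp (QuotientGroup.mk'_surjective M), ?_⟩
  ext g
  rw [MonoidHom.mem_ker]
  show e (QuotientGroup.mk' M g) = 1 ↔ g ∈ M
  rw [map_eq_one_iff e e.injective]
  exact QuotientGroup.eq_one_iff g

/-- The elementary abelian quotient. -/
theorem exists_hom_rank {P : Type} [Group P] [Finite P] (hP : IsPGroup 2 P) :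
    ∃ (d : ℕ) (φ : P →* Multiplicative (Fin d → ZMod 2)), Group.rank P ≤ d ∧
      Function.Surjective φ := by
  classical
  -- a maximal quotient
  have hbound : ∀ d : ℕ, (∃ φ : P →* Multiplicative (Fin d → ZMod 2), Function.Surjective φ) →
      d ≤ Nat.card P := by
    rintro d ⟨φ, hφ⟩
    have h1 := Nat.card_le_card_of_surjective φ hφ
    have h2 : Nat.card (Multiplicative (Fin d → ZMod 2)) = 2 ^ d := by
      rw [Nat.card_congr Multiplicative.toAdd, Nat.card_eq_fintype_card, Fintype.card_fun,
        ZMod.card, Fintype.card_fin]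
    rw [h2] at h1
    exact Nat.lt_two_pow_self.le.trans h1
  have hex : ∃ d : ℕ, ∃ φ : P →* Multiplicative (Fin d → ZMod 2), Function.Surjective φ := by
    refine ⟨0, 1, fun x => ⟨1, ?_⟩⟩
    apply Multiplicative.toAdd.injective
    exact Subsingleton.elim _ _
  obtain ⟨d, ⟨φ, hφ⟩, hmax⟩ : ∃ d : ℕ,
      (∃ φ : P →* Multiplicative (Fin d → ZMod 2), Function.Surjective φ) ∧
      ∀ d' : ℕ, (∃ φ : P →* Multiplicative (Fin d' → ZMod 2), Function.Surjective φ) → d' ≤ d := by
    refine ⟨Nat.findGreatest (fun d => ∃ φ : P →* Multiplicative (Fin d → ZMod 2),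
      Function.Surjective φ) (Nat.card P), ?_, ?_⟩
    · obtain ⟨d, hd⟩ := hex
      exact Nat.findGreatest_spec (P := fun d => ∃ φ : P →* Multiplicative (Fin d → ZMod 2),
        Function.Surjective φ) (hbound d hd) hd
    · intro d' hd'
      exact Nat.le_findGreatest (hbound d' hd') hd'
  refine ⟨d, φ, ?_, hφ⟩
  -- preimages of the unit vectors generate
  choose g hg using fun i : Fin d => hφ (Multiplicative.ofAdd (Pi.single i 1))
  let S : Finset P := Finset.univ.image g
  have hS : Subgroup.closure (S : Set P) = ⊤ := by
    by_contra hne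
    obtain ⟨M, hM, hHM⟩ := (eq_top_or_exists_le_coatom (Subgroup.closure (S : Set P))).resolve_left hne
    obtain ⟨χ, hχ, hker⟩ := exists_hom_of_coatom hP M hM
    have hgM : ∀ i, g i ∈ M := fun i => hHM (Subgroup.subset_closure (by
      rw [Finset.mem_coe, Finset.mem_image]
      exact ⟨i, Finset.mem_univ _, rfl⟩))
    -- a larger quotient
    let ψ : P →* Multiplicative (Fin (d + 1) → ZMod 2) :=
      { toFun := fun x => Multiplicative.ofAdd
          (Fin.cons (Multiplicative.toAdd (χ x)) (Multiplicative.toAdd (φ x)))
        map_one' := by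
          apply Multiplicative.toAdd.injective
          funext i
          refine Fin.cases ?_ (fun i => ?_) i
          · simp
          · simp
        map_mul' := by
          intro x y
          apply Multiplicative.toAdd.injective
          funext i
          refine Fin.cases ?_ (fun i => ?_) i
          · simp
          · simp }
    have hψ : ∀ x, Multiplicative.toAdd (ψ x) =
        Fin.cons (Multiplicative.toAdd (χ x)) (Multiplicative.toAdd (φ x)) := fun x => rfl
    -- every vector is reached inside `M` with first coordinate `0`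
    have hφM : ∀ v : Fin d → ZMod 2, ∃ x ∈ M, Multiplicative.toAdd (φ x) = v := by
      intro v
      have key : ∀ U : Finset (Fin d), ∃ x ∈ M, Multiplicative.toAdd (φ x) =
          fun i => if i ∈ U then 1 else 0 := by
        intro U
        induction U using Finset.induction_on with
        | empty =>
          refine ⟨1, M.one_mem, ?_⟩
          rw [map_one]
          funext i
          simp
        | insert i U hi ih =>
          obtain ⟨x, hx, hxφ⟩ := ih
          refine ⟨g i * x, M.mul_mem (hgM i) hx, ?_⟩
          rw [map_mul, hg, toAdd_mul, hxφ]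
          funext k
          simp only [toAdd_ofAdd, Pi.add_apply, Finset.mem_insert]
          by_cases hk : k = i
          · subst hk
            simp [hi]
          · simp [hk]
      obtain ⟨x, hx, hxφ⟩ := key (Finset.univ.filter fun i => v i = 1)
      refine ⟨x, hx, ?_⟩
      rw [hxφ]
      funext i
      simp only [Finset.mem_filter, Finset.mem_univ, true_and]
      have : ∀ z : ZMod 2, (if z = 1 then 1 else 0) = z := by decide
      exact this (v i)
    have hsurj : Function.Surjective ψ := by
      intro t
      obtain ⟨y, hy⟩ := hχ (Multiplicative.ofAdd (Multiplicative.toAdd t 0))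
      obtain ⟨x, hx, hxφ⟩ := hφM (fun i => Multiplicative.toAdd t i.succ -
        Multiplicative.toAdd (φ y) i)
      refine ⟨x * y, ?_⟩
      have hχx : χ x = 1 := by
        rw [← MonoidHom.mem_ker, hker]
        exact hx
      apply Multiplicative.toAdd.injective
      have h1 : χ (x * y) = χ y := by rw [map_mul, hχx, one_mul]
      have h2 : φ (x * y) = φ x * φ y := map_mul _ _ _
      rw [hψ, h1, h2, hy, toAdd_mul, hxφ]
      funext i
      refine Fin.cases ?_ (fun i => ?_) i
      · simp
      · simp
    have := hmax (d + 1) ⟨ψ, hsurj⟩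
    omega
  calc Group.rank P ≤ S.card := Group.rank_le hS
    _ ≤ (Finset.univ : Finset (Fin d)).card := Finset.card_image_le
    _ = d := by rw [Finset.card_univ, Fintype.card_fin]

end Pool.Agent.Helper243Two
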