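import Pool.Agent.Helper243_Two.SmoothAll
import Pool.Agent.Helper243_Two.QuotJ
import Pool.Agent.Helper243_Two.Rank

/-!
# Extensions of 2-groups by abelian groups
-/

set_option autoImplicit false

namespace Pool.Agent.Helper243Two

open Finset Module Pool.Agent.Helper243Abel

/-- One orbit, abelian quotient of smooth order. -/
theorem group_one (y : ℕ) (ρ δ : ℝ) (hρ : 0 < ρ) (hδ : 0 < δ) :
    ∃ n₀ : ℕ, ∀ (G A : Type) [Group G] [Fintype G] [CommGroup A] (π : G →* A),
      Function.Surjective π → IsPGroup 2 π.ker →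
      (∀ p : ℕ, p.Prime → p ∣ Nat.card A → p ≤ y) →
      (n₀ ≤ Nat.card A ∨ n₀ ≤ Group.rank π.ker) →
      ∀ C : Submodule (ZMod 2) (G → ZMod 2), (∀ g : G, ∀ f ∈ C, (fun x => f (g * x)) ∈ C) →
        ρ * Fintype.card G ≤ finrank (ZMod 2) C →
        ∃ f ∈ C, f ≠ 0 ∧ (hammingNorm f : ℝ) ≤ δ * Fintype.card G := by
  classical
  obtain ⟨n₁, h₁⟩ := smooth_all y ρ δ hρ hδ
  obtain ⟨m₀, h₂⟩ := two_groups n₁ ρ δ hρ hδ
  refine ⟨max n₁ m₀, ?_⟩
  intro G A _ _ _ π hπ hker hy hor C hC hdim
  have : Finite A := Finite.of_surjective π hπ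
  have : Fintype A := Fintype.ofFinite A
  rw [Nat.card_eq_fintype_card] at hy hor
  by_cases hA : n₁ ≤ Fintype.card A
  · refine quot π hπ hker ρ δ ?_ C hC hdim
    intro C' hC' hdim'
    exact h₁ A hy hA C' hC' hdim'
  · push Not at hA
    have hrank : m₀ ≤ Group.rank π.ker := by
      rcases hor with h | h
      · have := (le_max_left n₁ m₀).trans h
        omega
      · exact (le_max_right n₁ m₀).trans h
    obtain ⟨d, φ, hd, hφ⟩ := exists_hom_rank hker
    have hfree : ∀ (g : π.ker) (x : G), g • x = x → g = 1 := by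
      intro g x h
      have h1 : (g : G) * x = x := h
      exact Subtype.ext (mul_eq_right.1 h1)
    have hcard := card_free π.ker G hfree
    have hcardG : Nat.card G = Nat.card A * Nat.card π.ker := by
      have h5 := Subgroup.card_eq_card_quotient_mul_card_subgroup π.ker
      have h6 : Nat.card (G ⧸ π.ker) = Nat.card A :=
        Nat.card_congr (QuotientGroup.quotientKerEquivOfSurjective _ hπ).toEquiv
      rw [h5, h6]
    have horb : Nat.card (MulAction.orbitRel.Quotient π.ker G) ≤ n₁ := by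
      rw [Nat.card_eq_fintype_card (α := G), hcard, Nat.mul_comm (Nat.card A),
        Nat.card_eq_fintype_card (α := A)] at hcardG
      have h1 := Nat.eq_of_mul_eq_mul_left Nat.card_pos hcardG
      rw [h1]
      exact hA.le
    exact h₂ π.ker G hker hfree horb d φ (hrank.trans hd) hφ C (fun g f hf => hC g f hf) hdim

/-- Few orbits, abelian quotient of bounded exponent. -/
theorem group_few (e ℓ : ℕ) (he : 0 < e) (ρ δ : ℝ) (hρ : 0 < ρ) (hδ : 0 < δ) :
    ∃ n₀ : ℕ, ∀ (G A X : Type) [Group G] [Finite G] [CommGroup A] [Fintype X]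
      [Nonempty X] [MulAction G X] (π : G →* A), Function.Surjective π → IsPGroup 2 π.ker →
      (∀ a : A, a ^ e = 1) → (∀ (g : G) (x : X), g • x = x → g = 1) →
      Nat.card (MulAction.orbitRel.Quotient G X) ≤ ℓ →
      (n₀ ≤ Nat.card A ∨ n₀ ≤ Group.rank π.ker) →
      ∀ C : Submodule (ZMod 2) (X → ZMod 2), (∀ g : G, ∀ f ∈ C, (fun x => f (g • x)) ∈ C) →
        ρ * Fintype.card X ≤ finrank (ZMod 2) C →
        ∃ f ∈ C, f ≠ 0 ∧ (hammingNorm f : ℝ) ≤ δ * Fintype.card X := by
  classical
  obtain ⟨n₁, h₁⟩ := ext_free e ℓ he ρ δ hρ hδ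
  obtain ⟨m₀, h₂⟩ := two_groups (n₁ * ℓ) ρ δ hρ hδ
  refine ⟨max n₁ m₀, ?_⟩
  intro G A X _ _ _ _ _ _ π hπ hker hexp hfree hℓ hor C hC hdim
  have : Finite A := Finite.of_surjective π hπ
  by_cases hA : n₁ ≤ Nat.card A
  · exact h₁ G A X π hπ hker hexp hfree hℓ hA C hC hdim
  · push Not at hA
    have hrank : m₀ ≤ Group.rank π.ker := by
      rcases hor with h | h
      · have := (le_max_left n₁ m₀).trans h
        omega
      · exact (le_max_right n₁ m₀).trans h
    obtain ⟨d, φ, hd, hφ⟩ := exists_hom_rank hker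
    have hfree' : ∀ (g : π.ker) (x : X), g • x = x → g = 1 := by
      intro g x h
      exact Subtype.ext (hfree g x h)
    have hcard' := card_free π.ker X hfree'
    have hcard := card_free G X hfree
    have hcardG : Nat.card G = Nat.card A * Nat.card π.ker := by
      have h5 := Subgroup.card_eq_card_quotient_mul_card_subgroup π.ker
      have h6 : Nat.card (G ⧸ π.ker) = Nat.card A :=
        Nat.card_congr (QuotientGroup.quotientKerEquivOfSurjective _ hπ).toEquiv
      rw [h5, h6]
    have horb : Nat.card (MulAction.orbitRel.Quotient π.ker X) ≤ n₁ * ℓ := by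
      rw [hcard, hcardG, mul_comm (Nat.card A), mul_assoc] at hcard'
      have h1 := Nat.eq_of_mul_eq_mul_left Nat.card_pos hcard'
      rw [← h1]
      exact Nat.mul_le_mul hA.le hℓ
    exact h₂ π.ker X hker hfree' horb d φ (hrank.trans hd) hφ C (fun g f hf => hC g f hf) hdim

end Pool.Agent.Helper243Two
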