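import Pool.Agent.Helper243_Two.Box
import Pool.Agent.Helper243_Two.Fixed
import Pool.Agent.Helper243_Two.Deg

/-!
# Codes invariant under 2-groups with large elementary abelian quotients
-/

set_option autoImplicit false

namespace Pool.Agent.Helper243Two

open Finset Module

section descent

variable {P J ι : Type} [Group P] [Fintype P] [Fintype J] {n : ℕ}

/-- Some coordinates of a homomorphism to an elementary abelian 2-group. -/
def coords (φ : P →* Multiplicative (ι → ZMod 2)) (a : Fin n → ι) :
    P →* Multiplicative (Fin n → ZMod 2) where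
  toFun := fun g => Multiplicative.ofAdd fun i => (Multiplicative.toAdd (φ g)) (a i)
  map_one' := by
    rw [map_one]
    rfl
  map_mul' := by
    intro g h
    rw [map_mul]
    rfl

theorem coords_apply (φ : P →* Multiplicative (ι → ZMod 2)) (a : Fin n → ι) (g : P) (i : Fin n) :
    Multiplicative.toAdd (coords φ a g) i = Multiplicative.toAdd (φ g) (a i) := rfl

theorem coords_surj [DecidableEq ι] {φ : P →* Multiplicative (ι → ZMod 2)}
    (hφ : Function.Surjective φ) {a : Fin n → ι} (ha : Function.Injective a) :
    Function.Surjective (coords φ a) := by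
  intro u
  obtain ⟨g, hg⟩ := hφ (Multiplicative.ofAdd (Function.extend a (Multiplicative.toAdd u) 0))
  refine ⟨g, ?_⟩
  apply Multiplicative.toAdd.injective
  funext i
  rw [coords_apply, hg]
  show Function.extend a (Multiplicative.toAdd u) 0 (a i) = _
  rw [ha.extend_apply]

/-- Pulling back functions of `n` coordinates. -/
def pull (φ : P →* Multiplicative (ι → ZMod 2)) (a : Fin n → ι) :
    ((Fin n → ZMod 2) × J → ZMod 2) →ₗ[ZMod 2] (P × J → ZMod 2) :=
  LinearMap.funLeft (ZMod 2) (ZMod 2) fun q : P × J =>
    (Multiplicative.toAdd (coords φ a q.1), q.2)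

theorem pull_apply (φ : P →* Multiplicative (ι → ZMod 2)) (a : Fin n → ι)
    (F : (Fin n → ZMod 2) × J → ZMod 2) (q : P × J) :
    pull φ a F q = F (fun i => Multiplicative.toAdd (φ q.1) (a i), q.2) := rfl

theorem finrank_le_comap (hP : IsPGroup 2 P) {C : Submodule (ZMod 2) (P × J → ZMod 2)}
    (hC : ∀ h : P, ∀ f ∈ C, (fun q : P × J => f (h * q.1, q.2)) ∈ C)
    (φ : P →* Multiplicative (ι → ZMod 2)) (a : Fin n → ι)
    (ha : Function.Surjective (coords φ a)) :
    finrank (ZMod 2) C * 2 ^ n ≤ Nat.card P * finrank (ZMod 2) (C.comap (pull φ a)) := by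
  classical
  let K : Subgroup P := (coords φ a).ker
  let T : K →* Module.End (ZMod 2) C :=
    { toFun := fun k =>
        { toFun := fun f => ⟨fun q => (f : P × J → ZMod 2) ((k : P)⁻¹ * q.1, q.2), hC _ f f.2⟩
          map_add' := fun f g => rfl
          map_smul' := fun c f => rfl }
      map_one' := by
        ext f q
        simp
      map_mul' := by
        intro k h
        ext f q
        simp [mul_assoc] }
  have hT : ∀ (k : K) (f : C) (q : P × J),
      ((T k f : C) : P × J → ZMod 2) q = (f : P × J → ZMod 2) ((k : P)⁻¹ * q.1, q.2) :=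
    fun k f q => rfl
  have h1 := finrank_le_fixed (hP.to_subgroup K) T
  -- fixed words come from functions of `n` coordinates
  have h2 : (fixedVec T).map C.subtype ≤ (C.comap (pull φ a)).map (pull φ a) := by
    rintro _ ⟨f, hf, rfl⟩
    have hfix : ∀ k ∈ K, ∀ q : P × J,
        (f : P × J → ZMod 2) (k * q.1, q.2) = (f : P × J → ZMod 2) q := by
      intro k hk q
      have h3 := congrArg (fun v : C => (v : P × J → ZMod 2) (k * q.1, q.2)) (hf ⟨k, hk⟩)
      simp only [hT, inv_mul_cancel_left] at h3
      exact h3.symm
    let F : (Fin n → ZMod 2) × J → ZMod 2 := fun v =>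
      (f : P × J → ZMod 2) (Function.surjInv ha (Multiplicative.ofAdd v.1), v.2)
    have hF : pull φ a F = (f : P × J → ZMod 2) := by
      funext q
      show (f : P × J → ZMod 2) (Function.surjInv ha (coords φ a q.1), q.2) = _
      have h4 : Function.surjInv ha (coords φ a q.1) * q.1⁻¹ ∈ K := by
        rw [MonoidHom.mem_ker, map_mul, map_inv, Function.surjInv_eq ha, mul_inv_cancel]
      have h5 := hfix _ h4 q
      rw [inv_mul_cancel_right] at h5
      exact h5
    refine ⟨F, ?_, hF⟩
    show pull φ a F ∈ C
    rw [hF]
    exact f.2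
  have h3 : finrank (ZMod 2) (fixedVec T) ≤ finrank (ZMod 2) (C.comap (pull φ a)) := by
    rw [← Submodule.finrank_map_subtype_eq C (fixedVec T)]
    exact (Submodule.finrank_mono h2).trans (Submodule.finrank_map_le _ _)
  have h4 : Nat.card P = 2 ^ n * Nat.card K := by
    have h5 := Subgroup.card_eq_card_quotient_mul_card_subgroup K
    have h6 : Nat.card (P ⧸ K) = 2 ^ n := by
      rw [Nat.card_congr (QuotientGroup.quotientKerEquivOfSurjective _ ha).toEquiv]
      simp [Nat.card_eq_fintype_card]
    rw [h5, h6]
  calc finrank (ZMod 2) C * 2 ^ n ≤ (Nat.card K * finrank (ZMod 2) (fixedVec T)) * 2 ^ n :=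
        Nat.mul_le_mul_right _ h1
    _ ≤ (Nat.card K * finrank (ZMod 2) (C.comap (pull φ a))) * 2 ^ n :=
        Nat.mul_le_mul_right _ (Nat.mul_le_mul_left _ h3)
    _ = Nat.card P * finrank (ZMod 2) (C.comap (pull φ a)) := by rw [h4]; ring

end descent

theorem card_fiber {G H : Type} [Group G] [Fintype G] [Group H] [Fintype H] [DecidableEq H]
    (θ : G →* H) (hθ : Function.Surjective θ) (h : H) :
    (Finset.univ.filter fun g => θ g = h).card * Fintype.card H = Fintype.card G := by
  have h1 : ∀ h' : H, (Finset.univ.filter fun g => θ g = h').card =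
      (Finset.univ.filter fun g => θ g = h).card := fun h' =>
    MonoidHom.card_fiber_eq_of_mem_range θ (hθ h') (hθ h)
  have h2 := Finset.card_eq_sum_card_fiberwise (f := θ) (s := Finset.univ) (t := Finset.univ)
    (fun g _ => Finset.mem_univ (θ g))
  rw [Finset.card_univ] at h2
  rw [h2, Finset.sum_congr rfl fun h' _ => h1 h', Finset.sum_const, Finset.card_univ, smul_eq_mul,
    mul_comm]


/-- The number of elements on which `m` independent parities are prescribed. -/
theorem card_sep {P : Type} [Group P] [Fintype P] {ι : Type} [DecidableEq ι] {n : ℕ}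
    (φ : P →* Multiplicative (ι → ZMod 2)) (hφ : Function.Surjective φ)
    (a b : Fin n → ι) (ha : Function.Injective a) (hab : ∀ i k, a i ≠ b k)
    (S : Finset (Fin n)) [DecidablePred fun g : P => ∀ i ∈ S,
      Multiplicative.toAdd (φ g) (a i) ≠ Multiplicative.toAdd (φ g) (b i)] :
    (Finset.univ.filter fun g : P => ∀ i ∈ S,
      Multiplicative.toAdd (φ g) (a i) ≠ Multiplicative.toAdd (φ g) (b i)).card * 2 ^ S.card =
      Fintype.card P := by
  classical
  let θ : P →* Multiplicative (S → ZMod 2) :=
    { toFun := fun g => Multiplicative.ofAdd fun i =>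
        Multiplicative.toAdd (φ g) (a i) + Multiplicative.toAdd (φ g) (b i)
      map_one' := by
        rw [map_one]
        apply Multiplicative.toAdd.injective
        funext i
        show (0 : ZMod 2) + 0 = 0
        rw [add_zero]
      map_mul' := by
        intro g h
        rw [map_mul]
        apply Multiplicative.toAdd.injective
        funext i
        show (Multiplicative.toAdd (φ g) (a i) + Multiplicative.toAdd (φ h) (a i)) +
          (Multiplicative.toAdd (φ g) (b i) + Multiplicative.toAdd (φ h) (b i)) =
          (Multiplicative.toAdd (φ g) (a i) + Multiplicative.toAdd (φ g) (b i)) +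
          (Multiplicative.toAdd (φ h) (a i) + Multiplicative.toAdd (φ h) (b i))
        ring }
  have hθ : Function.Surjective θ := by
    intro t
    let t' : Fin n → ZMod 2 := fun i => if h : i ∈ S then Multiplicative.toAdd t ⟨i, h⟩ else 0
    obtain ⟨g, hg⟩ := hφ (Multiplicative.ofAdd (Function.extend a t' 0))
    refine ⟨g, ?_⟩
    apply Multiplicative.toAdd.injective
    funext i
    show Multiplicative.toAdd (φ g) (a i) + Multiplicative.toAdd (φ g) (b i) = _
    rw [hg]
    show Function.extend a t' 0 (a i) + Function.extend a t' 0 (b i) = _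
    rw [ha.extend_apply, Function.extend_apply' _ _ _ (by
      rintro ⟨k, hk⟩
      exact hab k i hk)]
    show t' i + 0 = _
    rw [add_zero]
    show (if h : (i : Fin n) ∈ S then Multiplicative.toAdd t ⟨i, h⟩ else 0) = _
    rw [dif_pos i.2]
  have h := card_fiber θ hθ (Multiplicative.ofAdd fun _ => 1)
  have h1 : Fintype.card (Multiplicative (S → ZMod 2)) = 2 ^ S.card := by
    rw [Fintype.card_multiplicative, Fintype.card_fun, ZMod.card, Fintype.card_coe]
  rw [h1] at h
  rw [← h]
  congr 2
  refine Finset.filter_congr fun g _ => ?_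
  have hz : ∀ x y : ZMod 2, x ≠ y ↔ x + y = 1 := by decide
  constructor
  · intro hg
    apply Multiplicative.toAdd.injective
    funext i
    exact (hz _ _).1 (hg i i.2)
  · intro hg i hi
    have := congrFun (congrArg Multiplicative.toAdd hg) ⟨i, hi⟩
    exact (hz _ _).2 this

end Pool.Agent.Helper243Two
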