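import Pool.Agent.Helper243_Two.Group

/-!
# Codes invariant under groups of permutations of the coordinates
-/

set_option autoImplicit false

namespace Pool.Agent.Helper243Two

open Finset Module

/-- The quotient by a normal subgroup that contains the commutators. -/
@[reducible] noncomputable def commQuot {G : Type} [Group G] (P : Subgroup G) [P.Normal]
    (h : ∀ g k : G, g * k * g⁻¹ * k⁻¹ ∈ P) : CommGroup (G ⧸ P) :=
  { (inferInstance : Group (G ⧸ P)) with
    mul_comm := by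
      intro a b
      induction a using QuotientGroup.induction_on with | H a => ?_
      induction b using QuotientGroup.induction_on with | H b => ?_
      rw [← QuotientGroup.mk_mul, ← QuotientGroup.mk_mul, QuotientGroup.eq]
      have := h b⁻¹ a⁻¹
      simp only [inv_inv] at this
      rwa [mul_inv_rev, ← mul_assoc] }

theorem perm_few (e ℓ : ℕ) (he : 0 < e) (ρ δ : ℝ) (hρ : 0 < ρ) (hδ : 0 < δ) :
    ∃ n₀ : ℕ, ∀ (Ω : Type) [Fintype Ω] [Nonempty Ω] (C : Submodule (ZMod 2) (Ω → ZMod 2))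
      (G : Subgroup (Equiv.Perm Ω)) (P : Subgroup G),
      (∀ g ∈ G, ∀ c ∈ C, (fun x => c (g x)) ∈ C) →
      ρ * Fintype.card Ω ≤ finrank (ZMod 2) C →
      (∀ c ∈ C, c ≠ 0 → δ * Fintype.card Ω ≤ hammingNorm c) →
      P.Normal → IsPGroup 2 P → (∀ g h : G, g * h * g⁻¹ * h⁻¹ ∈ P) → (∀ g : G, g ^ e ∈ P) →
      (∀ g ∈ G, ∀ x : Ω, g x = x → g = 1) →
      Nat.card (MulAction.orbitRel.Quotient G Ω) ≤ ℓ →
      P.index < n₀ ∧ Group.rank P < n₀ := by
  classical
  obtain ⟨n₀, h₀⟩ := group_few e ℓ he ρ (δ / 2) hρ (by linarith)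
  refine ⟨n₀, ?_⟩
  intro Ω _ _ C G P hC hdim hdist hnorm hP hcomm hexp hfree hℓ
  let inst : CommGroup (G ⧸ P) := commQuot P hcomm
  have hker : (QuotientGroup.mk' P).ker = P := QuotientGroup.ker_mk' P
  have hpos : (0 : ℝ) < Fintype.card Ω := by exact_mod_cast Fintype.card_pos
  have hrank : Group.rank (QuotientGroup.mk' P).ker = Group.rank P := by
    exact Group.rank_congr (MulEquiv.subgroupCongr hker)
  by_contra hcon
  have hor : n₀ ≤ Nat.card (G ⧸ P) ∨ n₀ ≤ Group.rank (QuotientGroup.mk' P).ker := by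
    rw [hrank]
    rw [not_and_or, not_lt, not_lt] at hcon
    exact hcon
  obtain ⟨f, hf, hf0, hw⟩ := h₀ G (G ⧸ P) Ω (QuotientGroup.mk' P)
    (QuotientGroup.mk'_surjective P) (by rw [hker]; exact hP)
    (by
      intro a
      induction a using QuotientGroup.induction_on with | H a => ?_
      exact (QuotientGroup.eq_one_iff _).2 (hexp a))
    (fun g x hx => Subtype.ext (hfree g g.2 x hx)) hℓ hor C
    (fun g c hc => hC g g.2 c hc) hdim
  have := hdist f hf hf0
  nlinarith

theorem perm_one (y : ℕ) (ρ δ : ℝ) (hρ : 0 < ρ) (hδ : 0 < δ) :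
    ∃ n₀ : ℕ, ∀ (Ω : Type) [Fintype Ω] [Nonempty Ω] (C : Submodule (ZMod 2) (Ω → ZMod 2))
      (G : Subgroup (Equiv.Perm Ω)) (P : Subgroup G),
      (∀ g ∈ G, ∀ c ∈ C, (fun x => c (g x)) ∈ C) →
      ρ * Fintype.card Ω ≤ finrank (ZMod 2) C →
      (∀ c ∈ C, c ≠ 0 → δ * Fintype.card Ω ≤ hammingNorm c) →
      P.Normal → IsPGroup 2 P → (∀ g h : G, g * h * g⁻¹ * h⁻¹ ∈ P) →
      (∀ p : ℕ, p.Prime → p ∣ P.index → p ≤ y) →
      (∀ g ∈ G, ∀ x : Ω, g x = x → g = 1) →
      Nat.card (MulAction.orbitRel.Quotient G Ω) = 1 →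
      P.index < n₀ ∧ Group.rank P < n₀ := by
  classical
  obtain ⟨n₀, h₀⟩ := group_one y ρ (δ / 2) hρ (by linarith)
  refine ⟨n₀, ?_⟩
  intro Ω _ _ C G P hC hdim hdist hnorm hP hcomm hy hfree hone
  let inst : CommGroup (G ⧸ P) := commQuot P hcomm
  have hker : (QuotientGroup.mk' P).ker = P := QuotientGroup.ker_mk' P
  have hpos : (0 : ℝ) < Fintype.card Ω := by exact_mod_cast Fintype.card_pos
  have hrank : Group.rank (QuotientGroup.mk' P).ker = Group.rank P := by
    exact Group.rank_congr (MulEquiv.subgroupCongr hker)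
  by_contra hcon
  have hor : n₀ ≤ Nat.card (G ⧸ P) ∨ n₀ ≤ Group.rank (QuotientGroup.mk' P).ker := by
    rw [hrank]
    rw [not_and_or, not_lt, not_lt] at hcon
    exact hcon
  -- the coordinates are the elements of the group
  obtain ⟨x₀⟩ := (inferInstance : Nonempty Ω)
  have hfin : Fintype G := Fintype.ofFinite G
  have hbij : Function.Bijective fun g : G => (g : Equiv.Perm Ω) x₀ := by
    constructor
    · intro g h hgh
      have h1 : ((h⁻¹ * g : G) : Equiv.Perm Ω) x₀ = x₀ := by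
        show ((h : Equiv.Perm Ω)⁻¹ * (g : Equiv.Perm Ω)) x₀ = x₀
        rw [Equiv.Perm.mul_apply]
        have h2 : (g : Equiv.Perm Ω) x₀ = (h : Equiv.Perm Ω) x₀ := hgh
        rw [h2]
        exact Equiv.symm_apply_apply _ _
      have h3 := hfree _ (h⁻¹ * g : G).2 x₀ h1
      have h4 : h⁻¹ * g = 1 := Subtype.ext h3
      exact (inv_mul_eq_one.1 h4).symm
    · intro x
      have h1 : Subsingleton (MulAction.orbitRel.Quotient G Ω) :=
        (Nat.card_eq_one_iff_unique.1 hone).1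
      have h2 : (Quotient.mk'' x : MulAction.orbitRel.Quotient G Ω) = Quotient.mk'' x₀ :=
        Subsingleton.elim _ _
      obtain ⟨g, hg⟩ := MulAction.orbitRel_apply.1 (Quotient.exact h2)
      exact ⟨g, hg⟩
  let E : G ≃ Ω := Equiv.ofBijective _ hbij
  have hE : ∀ g h : G, E (g * h) = (g : Equiv.Perm Ω) (E h) := by
    intro g h
    show ((g * h : G) : Equiv.Perm Ω) x₀ = _
    rfl
  let L : (Ω → ZMod 2) ≃ₗ[ZMod 2] (G → ZMod 2) := LinearEquiv.funCongrLeft (ZMod 2) (ZMod 2) E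
  have hL : ∀ c g, L c g = c (E g) := fun c g => rfl
  have hcard : (Fintype.card G : ℝ) = Fintype.card Ω := by
    exact_mod_cast Fintype.card_congr E
  obtain ⟨f, hf, hf0, hw⟩ := h₀ G (G ⧸ P) (QuotientGroup.mk' P)
    (QuotientGroup.mk'_surjective P) (by rw [hker]; exact hP) hy hor
    (C.map L.toLinearMap)
    (by
      rintro g _ ⟨c, hc, rfl⟩
      refine ⟨_, hC g g.2 c hc, ?_⟩
      funext h
      show c ((g : Equiv.Perm Ω) (E h)) = c (E (g * h))
      rw [hE])
    (by
      rw [hcard]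
      have : finrank (ZMod 2) (C.map L.toLinearMap) = finrank (ZMod 2) C :=
        LinearEquiv.finrank_map_eq L C
      rw [this]
      exact hdim)
  obtain ⟨c, hc, rfl⟩ := hf
  have hc0 : c ≠ 0 := by
    rintro rfl
    exact hf0 (map_zero _)
  have h1 := hdist c hc hc0
  have h2 : hammingNorm (L.toLinearMap c) = hammingNorm c := hammingNorm_comp E c
  rw [h2, hcard] at hw
  nlinarith

end Pool.Agent.Helper243Two
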