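import Mathlib

/-!
# Large abelian 2-groups have large elementary abelian or large cyclic quotients
-/

set_option autoImplicit false

namespace Pool.Agent.Helper243Two

theorem two_struct (m₀ e₀ : ℕ) {P : Type} [CommGroup P] [Finite P] (hP : IsPGroup 2 P)
    (hbig : 2 ^ (e₀ * m₀) < Nat.card P) :
    (∃ ψ : P →* Multiplicative (Fin m₀ → ZMod 2), Function.Surjective ψ) ∨
    ∃ e, e₀ ≤ e ∧ ∃ ψ : P →* Multiplicative (ZMod (2 ^ e)), Function.Surjective ψ := by
  classical
  have hfact : Fact (Nat.Prime 2) := ⟨Nat.prime_two⟩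
  obtain ⟨ι, hι, n, hn, ⟨E⟩⟩ := CommGroup.equiv_prod_multiplicative_zmod_of_finite P
  obtain ⟨k, hk⟩ := (IsPGroup.iff_card).1 hP
  have hcard : Nat.card P = ∏ i, n i := by
    have : ∀ i, NeZero (n i) := fun i => ⟨by have := hn i; omega⟩
    rw [Nat.card_congr E.toEquiv, Nat.card_pi]
    refine Finset.prod_congr rfl fun i _ => ?_
    rw [Nat.card_congr Multiplicative.toAdd, Nat.card_zmod]
  have hpow : ∀ i, ∃ j, n i = 2 ^ j := by
    intro i
    have h1 : n i ∣ 2 ^ k := by
      rw [← hk, hcard]
      exact Finset.dvd_prod_of_mem n (Finset.mem_univ i)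
    obtain ⟨j, _, hj⟩ := (Nat.dvd_prime_pow Nat.prime_two).1 h1
    exact ⟨j, hj⟩
  choose j hj using hpow
  have hj1 : ∀ i, 1 ≤ j i := by
    intro i
    by_contra hcon
    push Not at hcon
    have h1 := hn i
    rw [hj i, Nat.lt_one_iff.1 hcon, pow_zero] at h1
    exact lt_irrefl _ h1
  by_cases hm : m₀ ≤ Fintype.card ι
  · left
    obtain ⟨emb⟩ : Nonempty (Fin m₀ ↪ ι) := by
      apply Function.Embedding.nonempty_of_card_le
      rwa [Fintype.card_fin]
    have h2 : ∀ i, 2 ∣ n i := fun i => by
      rw [hj i]
      exact dvd_pow_self 2 (by have := hj1 i; omega)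
    let ψ' : ((i : ι) → Multiplicative (ZMod (n i))) →* Multiplicative (Fin m₀ → ZMod 2) :=
      { toFun := fun x => Multiplicative.ofAdd fun s =>
          ZMod.castHom (h2 (emb s)) (ZMod 2) (Multiplicative.toAdd (x (emb s)))
        map_one' := by
          apply Multiplicative.toAdd.injective
          funext s
          show ZMod.castHom (h2 (emb s)) (ZMod 2) 0 = 0
          exact map_zero _
        map_mul' := by
          intro x y
          apply Multiplicative.toAdd.injective
          funext s
          show ZMod.castHom (h2 (emb s)) (ZMod 2) (Multiplicative.toAdd (x (emb s)) +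
            Multiplicative.toAdd (y (emb s))) = _
          rw [map_add]
          rfl }
    have hψ' : Function.Surjective ψ' := by
      intro v
      have hs : ∀ s : Fin m₀, ∃ z : ZMod (n (emb s)),
          ZMod.castHom (h2 (emb s)) (ZMod 2) z = Multiplicative.toAdd v s :=
        fun s => ZMod.ringHom_surjective _ _
      choose z hz using hs
      refine ⟨fun i => if h : ∃ s, emb s = i then
        Multiplicative.ofAdd (h.choose_spec ▸ z h.choose) else 1, ?_⟩
      apply Multiplicative.toAdd.injective
      funext s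
      show ZMod.castHom (h2 (emb s)) (ZMod 2) (Multiplicative.toAdd
        (if h : ∃ s', emb s' = emb s then
          Multiplicative.ofAdd (h.choose_spec ▸ z h.choose) else 1)) = _
      have hex : ∃ s', emb s' = emb s := ⟨s, rfl⟩
      rw [dif_pos hex, toAdd_ofAdd, ← hz s]
      have hch : hex.choose = s := emb.injective hex.choose_spec
      have key : ∀ (s' : Fin m₀) (h : emb s' = emb s), s' = s →
          (h ▸ z s' : ZMod (n (emb s))) = z s := by
        intro s' h hs'
        subst hs'
        rfl
      rw [key _ hex.choose_spec hch]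
    exact ⟨ψ'.comp E.toMonoidHom, hψ'.comp E.surjective⟩
  · right
    push Not at hm
    obtain ⟨i, hi⟩ : ∃ i, e₀ ≤ j i := by
      by_contra hcon
      push Not at hcon
      have h1 : Nat.card P ≤ 2 ^ (e₀ * m₀) := by
        rw [hcard]
        calc ∏ i, n i ≤ ∏ _i : ι, 2 ^ e₀ := by
              refine Finset.prod_le_prod' fun i _ => ?_
              rw [hj i]
              exact Nat.pow_le_pow_right (by norm_num) (hcon i).le
          _ = 2 ^ (e₀ * Fintype.card ι) := by
              rw [Finset.prod_const, Finset.card_univ, ← pow_mul]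
          _ ≤ 2 ^ (e₀ * m₀) :=
              Nat.pow_le_pow_right (by norm_num) (Nat.mul_le_mul_left _ hm.le)
      omega
    refine ⟨j i, hi, ?_⟩
    rw [← hj i]
    refine ⟨(Pi.evalMonoidHom _ i).comp E.toMonoidHom, ?_⟩
    intro z
    obtain ⟨x, hx⟩ := E.surjective (Pi.mulSingle i z)
    refine ⟨x, ?_⟩
    show E x i = z
    rw [hx, Pi.mulSingle_eq_same]

end Pool.Agent.Helper243Two
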