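import Pool.Agent.Helper243_Abel.OrbitsX
import Pool.Agent.Helper243_Two.Free
import Pool.Agent.Helper243_Two.Struct

/-!
# Quasi-abelian codes of bounded index over groups of bounded exponent
-/

set_option autoImplicit false

namespace Pool.Agent.Helper243Two

open Finset Module Pool.Agent.Helper243Abel

/-- The number of coordinates, for a free action. -/
theorem card_free (P X : Type) [Group P] [Finite P] [Fintype X] [MulAction P X]
    (hfree : ∀ (g : P) (x : X), g • x = x → g = 1) :
    Fintype.card X = Nat.card P * Nat.card (MulAction.orbitRel.Quotient P X) := by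
  obtain ⟨e, _⟩ := exists_equiv P X hfree
  rw [← Nat.card_eq_fintype_card, ← Nat.card_congr e, Nat.card_prod]

theorem quasi (e ℓ : ℕ) (he : 0 < e) (ρ δ : ℝ) (hρ : 0 < ρ) (hδ : 0 < δ) :
    ∃ n₀ : ℕ, ∀ (G X : Type) [CommGroup G] [Finite G] [Fintype X] [MulAction G X],
      (∀ g : G, g ^ e = 1) → (∀ (g : G) (x : X), g • x = x → g = 1) →
      Nat.card (MulAction.orbitRel.Quotient G X) ≤ ℓ →
      n₀ ≤ Fintype.card X →
      ∀ C : Submodule (ZMod 2) (X → ZMod 2), Invariant G C →
        ρ * Fintype.card X ≤ finrank (ZMod 2) C →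
        ∃ f ∈ C, f ≠ 0 ∧ (hammingNorm f : ℝ) ≤ δ * Fintype.card X := by
  classical
  obtain ⟨b, e', he', hbe⟩ := Nat.exists_eq_two_pow_mul_odd (n := e) he.ne'
  obtain ⟨n₁, h₁⟩ := orbitsX e' ℓ he' ρ δ hρ hδ
  obtain ⟨m₀, h₂⟩ := two_groups (n₁ * ℓ) ρ δ hρ hδ
  refine ⟨n₁ * ℓ * 2 ^ ((b + 1) * m₀) + 1, ?_⟩
  intro G X _ _ _ _ hexp hfree hℓ hn C hC hdim
  have hfact : Fact (Nat.Prime 2) := ⟨Nat.prime_two⟩
  have : Fintype G := Fintype.ofFinite G
  have hX : Nonempty X := by
    apply Fintype.card_pos_iff.1
    omega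
  obtain ⟨k, m, hm, hG⟩ := Nat.exists_eq_two_pow_mul_odd (n := Fintype.card G) Fintype.card_ne_zero
  have hcardX := card_free G X hfree
  by_cases hmn : n₁ ≤ m
  · -- the odd part is large
    refine h₁ G X ?_ hℓ ?_ C hC hdim
    · intro g hg
      rw [← orderOf_dvd_iff_pow_eq_one]
      have h3 : orderOf g ∣ 2 ^ b * e' := hbe ▸ orderOf_dvd_of_pow_eq_one (hexp g)
      exact (Nat.Coprime.pow_right b hg.coprime_two_right).dvd_of_dvd_mul_left h3
    · have hempty : IsEmpty {x : X // ordCompl[2] (Nat.card (MulAction.orbit G x)) < n₁} := by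
        refine ⟨fun x => ?_⟩
        have h3 : Nat.card (MulAction.orbit G (x : X)) = Fintype.card G := by
          rw [← Nat.card_eq_fintype_card]
          have hinj : Function.Injective fun g : G => g • (x : X) := by
            intro g h hgh
            have h4 : (h⁻¹ * g) • (x : X) = x := by
              rw [mul_smul]
              show h⁻¹ • (g • (x : X)) = x
              have h5 : g • (x : X) = h • (x : X) := hgh
              rw [h5, inv_smul_smul]
            exact (inv_mul_eq_one.1 (hfree _ _ h4)).symm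
          exact (Nat.card_congr (Equiv.ofInjective _ hinj)).symm
        have h4 := x.2
        rw [h3, hG, Nat.ordCompl_self_pow_mul _ _ Nat.prime_two,
          (Nat.ordCompl_eq_self_iff_zero_or_not_dvd m Nat.prime_two).2 (Or.inr fun h2 =>
            (Nat.not_even_iff_odd.2 hm) (even_iff_two_dvd.2 h2))] at h4
        omega
      rw [Nat.card_of_isEmpty, Nat.cast_zero, mul_zero]
      positivity
  · -- the 2-part is large
    push Not at hmn
    have hPcard : Nat.card (ker G (2 ^ k)) * Nat.card (ker G m) = 2 ^ k * m := by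
      have : Fintype (ker G m) := Fintype.ofFinite _
      have : Fintype (ker G (2 ^ k)) := Fintype.ofFinite _
      rw [Nat.card_eq_fintype_card, Nat.card_eq_fintype_card]
      apply le_antisymm
      · rw [mul_comm, ← hG]
        exact card_split hm
      · rw [← hG, ← Fintype.card_prod]
        refine Fintype.card_le_of_surjective
          (fun q : ker G (2 ^ k) × ker G m => (q.1 : G) * q.2) ?_
        intro x
        obtain ⟨g, v, h⟩ := split_surj hm hG x
        exact ⟨(v, g), (mul_comm _ _).trans h⟩
    have hP : IsPGroup 2 (ker G (2 ^ k)) := by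
      intro g
      refine ⟨k, Subtype.ext ?_⟩
      exact mem_ker.1 g.2
    have hQodd : Odd (Nat.card (ker G m)) := by
      have : Fintype (ker G m) := Fintype.ofFinite _
      rw [Nat.card_eq_fintype_card]
      exact odd_card hm
    obtain ⟨a, ha⟩ := (IsPGroup.iff_card).1 hP
    have hPbig : 2 ^ k ≤ Nat.card (ker G (2 ^ k)) := by
      rw [ha]
      apply Nat.le_of_dvd (by positivity)
      have h3 : 2 ^ k ∣ 2 ^ a * Nat.card (ker G m) := by
        rw [← ha, hPcard]
        exact dvd_mul_right _ _
      exact (Nat.Coprime.pow_left k hQodd.coprime_two_left).dvd_of_dvd_mul_right h3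
    have hfree' : ∀ (g : ker G (2 ^ k)) (x : X), g • x = x → g = 1 := by
      intro g x hgx
      exact Subtype.ext (hfree g x hgx)
    have hcardX' := card_free (ker G (2 ^ k)) X hfree'
    -- the number of orbits
    have horb : Nat.card (MulAction.orbitRel.Quotient (ker G (2 ^ k)) X) ≤ n₁ * ℓ := by
      have h3 : 2 ^ k * Nat.card (MulAction.orbitRel.Quotient (ker G (2 ^ k)) X) ≤
          2 ^ k * (n₁ * ℓ) := by
        calc 2 ^ k * Nat.card (MulAction.orbitRel.Quotient (ker G (2 ^ k)) X)
            ≤ Nat.card (ker G (2 ^ k)) *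
              Nat.card (MulAction.orbitRel.Quotient (ker G (2 ^ k)) X) :=
              Nat.mul_le_mul_right _ hPbig
          _ = Nat.card G * Nat.card (MulAction.orbitRel.Quotient G X) := by
              rw [← hcardX', hcardX]
          _ ≤ (2 ^ k * n₁) * ℓ := by
              rw [Nat.card_eq_fintype_card, hG]
              exact Nat.mul_le_mul (Nat.mul_le_mul_left _ hmn.le) hℓ
          _ = 2 ^ k * (n₁ * ℓ) := by ring
      exact Nat.le_of_mul_le_mul_left h3 (by positivity)
    have hbig : 2 ^ ((b + 1) * m₀) < Nat.card (ker G (2 ^ k)) := by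
      by_contra hcon
      push Not at hcon
      have h3 : Fintype.card X ≤ 2 ^ ((b + 1) * m₀) * (n₁ * ℓ) := by
        rw [hcardX']
        exact Nat.mul_le_mul hcon horb
      have h4 : 2 ^ ((b + 1) * m₀) * (n₁ * ℓ) = n₁ * ℓ * 2 ^ ((b + 1) * m₀) := by ring
      omega
    have hψ : ∃ ψ : ker G (2 ^ k) →* Multiplicative (Fin m₀ → ZMod 2), Function.Surjective ψ := by
      rcases two_struct m₀ (b + 1) hP hbig with h | ⟨c, hc, ψ, hψ⟩
      · exact h
      · exfalso
        -- a cyclic quotient of order `2 ^ c` contradicts the exponent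
        obtain ⟨g, hg⟩ := hψ (Multiplicative.ofAdd 1)
        have h3 : orderOf (ψ g) ∣ e := by
          apply orderOf_dvd_of_pow_eq_one
          rw [← map_pow]
          have : g ^ e = 1 := Subtype.ext (hexp g)
          rw [this, map_one]
        rw [hg, orderOf_ofAdd_eq_addOrderOf, ZMod.addOrderOf_one, hbe] at h3
        have h4 : 2 ^ c ∣ 2 ^ b :=
          (Nat.Coprime.pow_left c he'.coprime_two_left).dvd_of_dvd_mul_right h3
        have h5 := Nat.le_of_dvd (by positivity) h4
        have h6 := (Nat.pow_le_pow_iff_right (by norm_num : 1 < 2)).1 h5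
        omega
    obtain ⟨ψ, hψ⟩ := hψ
    refine h₂ (ker G (2 ^ k)) X hP hfree' horb m₀ ψ le_rfl hψ C ?_ hdim
    intro g f hf
    exact hC g f hf

end Pool.Agent.Helper243Two
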