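import Pool.Agent.Helper243_Two.Free

/-!
# Reduction modulo a normal 2-subgroup
-/

set_option autoImplicit false

namespace Pool.Agent.Helper243Two

open Finset Module

variable {A B : Type} [Group A] [Fintype A] [Group B] [Fintype B]

/-- Pulling back functions along a homomorphism. -/
def pb (π : A →* B) : (B → ZMod 2) →ₗ[ZMod 2] (A → ZMod 2) :=
  LinearMap.funLeft (ZMod 2) (ZMod 2) π

omit [Fintype A] [Fintype B] in
theorem pb_apply (π : A →* B) (f : B → ZMod 2) (a : A) : pb π f a = f (π a) := rfl

theorem finrank_le_pb (π : A →* B) (hπ : Function.Surjective π) (hker : IsPGroup 2 π.ker)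
    {C : Submodule (ZMod 2) (A → ZMod 2)} (hC : ∀ h : A, ∀ f ∈ C, (fun x => f (h * x)) ∈ C) :
    finrank (ZMod 2) C * Fintype.card B ≤ Fintype.card A * finrank (ZMod 2) (C.comap (pb π)) := by
  classical
  let K : Subgroup A := π.ker
  let T : K →* Module.End (ZMod 2) C :=
    { toFun := fun k =>
        { toFun := fun f => ⟨fun q => (f : A → ZMod 2) ((k : A)⁻¹ * q), hC _ f f.2⟩
          map_add' := fun f g => rfl
          map_smul' := fun c f => rfl }
      map_one' := by
        ext f q
        simp
      map_mul' := by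
        intro k h
        ext f q
        simp [mul_assoc] }
  have hT : ∀ (k : K) (f : C) (q : A),
      ((T k f : C) : A → ZMod 2) q = (f : A → ZMod 2) ((k : A)⁻¹ * q) :=
    fun k f q => rfl
  have h1 := finrank_le_fixed hker T
  have h2 : (fixedVec T).map C.subtype ≤ (C.comap (pb π)).map (pb π) := by
    rintro _ ⟨f, hf, rfl⟩
    have hfix : ∀ k ∈ K, ∀ q : A, (f : A → ZMod 2) (k * q) = (f : A → ZMod 2) q := by
      intro k hk q
      have h3 := congrArg (fun v : C => (v : A → ZMod 2) (k * q)) (hf ⟨k, hk⟩)
      simp only [hT, inv_mul_cancel_left] at h3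
      exact h3.symm
    let F : B → ZMod 2 := fun v => (f : A → ZMod 2) (Function.surjInv hπ v)
    have hF : pb π F = (f : A → ZMod 2) := by
      funext q
      show (f : A → ZMod 2) (Function.surjInv hπ (π q)) = _
      have h4 : Function.surjInv hπ (π q) * q⁻¹ ∈ K := by
        rw [MonoidHom.mem_ker, map_mul, map_inv, Function.surjInv_eq hπ, mul_inv_cancel]
      have h5 := hfix _ h4 q
      rw [inv_mul_cancel_right] at h5
      exact h5
    refine ⟨F, ?_, hF⟩
    show pb π F ∈ C
    rw [hF]
    exact f.2
  have h3 : finrank (ZMod 2) (fixedVec T) ≤ finrank (ZMod 2) (C.comap (pb π)) := by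
    rw [← Submodule.finrank_map_subtype_eq C (fixedVec T)]
    exact (Submodule.finrank_mono h2).trans (Submodule.finrank_map_le _ _)
  have h4 : Nat.card A = Nat.card B * Nat.card K := by
    have h5 := Subgroup.card_eq_card_quotient_mul_card_subgroup K
    have h6 : Nat.card (A ⧸ K) = Nat.card B :=
      Nat.card_congr (QuotientGroup.quotientKerEquivOfSurjective _ hπ).toEquiv
    rw [h5, h6]
  rw [Nat.card_eq_fintype_card, Nat.card_eq_fintype_card] at h4
  calc finrank (ZMod 2) C * Fintype.card B
      ≤ (Nat.card K * finrank (ZMod 2) (fixedVec T)) * Fintype.card B :=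
        Nat.mul_le_mul_right _ h1
    _ ≤ (Nat.card K * finrank (ZMod 2) (C.comap (pb π))) * Fintype.card B :=
        Nat.mul_le_mul_right _ (Nat.mul_le_mul_left _ h3)
    _ = Fintype.card A * finrank (ZMod 2) (C.comap (pb π)) := by rw [h4]; ring

theorem hammingNorm_pb (π : A →* B) (hπ : Function.Surjective π) (f : B → ZMod 2) :
    hammingNorm (pb π f) * Fintype.card B = Fintype.card A * hammingNorm f := by
  classical
  have h1 : hammingNorm (pb π f) =
      ∑ b ∈ Finset.univ.filter (fun b => f b ≠ 0), (Finset.univ.filter fun a => π a = b).card := by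
    unfold hammingNorm
    rw [Finset.card_eq_sum_card_fiberwise (f := π) (t := Finset.univ.filter fun b => f b ≠ 0)]
    · refine Finset.sum_congr rfl fun b hb => ?_
      rw [Finset.mem_filter] at hb
      congr 1
      ext a
      simp only [Finset.mem_filter, Finset.mem_univ, true_and, pb_apply]
      constructor
      · exact fun h => h.2
      · intro h
        exact ⟨by rw [h]; exact hb.2, h⟩
    · intro a ha
      rw [Finset.mem_coe, Finset.mem_filter] at ha ⊢
      exact ⟨Finset.mem_univ _, ha.2⟩
  rw [h1, Finset.sum_mul, Finset.sum_congr rfl fun b _ => card_fiber π hπ b, Finset.sum_const,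
    smul_eq_mul, mul_comm]
  rfl

/-- If the codes over the quotient are bad, so are the codes over the group. -/
theorem quot (π : A →* B) (hπ : Function.Surjective π) (hker : IsPGroup 2 π.ker) (ρ δ : ℝ)
    (hB : ∀ C : Submodule (ZMod 2) (B → ZMod 2), (∀ h : B, ∀ f ∈ C, (fun x => f (h * x)) ∈ C) →
      ρ * Fintype.card B ≤ finrank (ZMod 2) C →
      ∃ f ∈ C, f ≠ 0 ∧ (hammingNorm f : ℝ) ≤ δ * Fintype.card B)
    (C : Submodule (ZMod 2) (A → ZMod 2)) (hC : ∀ h : A, ∀ f ∈ C, (fun x => f (h * x)) ∈ C)
    (hdim : ρ * Fintype.card A ≤ finrank (ZMod 2) C) :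
    ∃ f ∈ C, f ≠ 0 ∧ (hammingNorm f : ℝ) ≤ δ * Fintype.card A := by
  have hA0 : (0 : ℝ) < Fintype.card A := by exact_mod_cast Fintype.card_pos
  have hB0 : (0 : ℝ) < Fintype.card B := by exact_mod_cast Fintype.card_pos
  obtain ⟨f, hf, hf0, hw⟩ := hB (C.comap (pb π)) (by
    intro b f hf
    obtain ⟨a, rfl⟩ := hπ b
    show pb π (fun x => f (π a * x)) ∈ C
    have h1 : pb π (fun x => f (π a * x)) = fun x => (pb π f) (a * x) := by
      funext x
      rw [pb_apply, pb_apply, map_mul]
    rw [h1]
    exact hC a _ hf) (by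
    have h1 := finrank_le_pb π hπ hker hC
    have h2 : (finrank (ZMod 2) C : ℝ) * Fintype.card B ≤
        Fintype.card A * finrank (ZMod 2) (C.comap (pb π)) := by exact_mod_cast h1
    refine le_of_mul_le_mul_left ?_ hA0
    calc (Fintype.card A : ℝ) * (ρ * Fintype.card B) = (ρ * Fintype.card A) * Fintype.card B := by
          ring
      _ ≤ finrank (ZMod 2) C * Fintype.card B := mul_le_mul_of_nonneg_right hdim hB0.le
      _ ≤ _ := h2)
  refine ⟨pb π f, hf, ?_, ?_⟩
  · intro h
    apply hf0
    funext b
    obtain ⟨a, rfl⟩ := hπ b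
    exact congrFun h a
  · have h1 : (hammingNorm (pb π f) : ℝ) * Fintype.card B = Fintype.card A * hammingNorm f := by
      exact_mod_cast hammingNorm_pb π hπ f
    refine le_of_mul_le_mul_right ?_ hB0
    rw [h1]
    calc (Fintype.card A : ℝ) * hammingNorm f ≤ Fintype.card A * (δ * Fintype.card B) :=
          mul_le_mul_of_nonneg_left hw hA0.le
      _ = δ * Fintype.card A * Fintype.card B := by ring

end Pool.Agent.Helper243Two
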