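import Pool.Agent.Helper243_Abel.Smooth
import Pool.Agent.Helper243_Two.Quot
import Pool.Agent.Helper243_Two.Cyc
import Pool.Agent.Helper243_Two.Struct

/-!
# Abelian codes of smooth length
-/

set_option autoImplicit false

namespace Pool.Agent.Helper243Two

open Finset Module Pool.Agent.Helper243Abel

/-- The case of a large 2-part. -/
theorem two_part (n₁ : ℕ) (ρ δ : ℝ) (hρ : 0 < ρ) (hδ : 0 < δ) :
    ∃ K : ℕ, ∀ (A : Type) [CommGroup A] [Fintype A] (k m : ℕ), Odd m →
      Fintype.card A = 2 ^ k * m → m ≤ n₁ → K < 2 ^ k →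
      ∀ C : Submodule (ZMod 2) (A → ZMod 2), (∀ a : A, ∀ f ∈ C, (fun x => f (a * x)) ∈ C) →
        ρ * Fintype.card A ≤ finrank (ZMod 2) C →
        ∃ f ∈ C, f ≠ 0 ∧ (hammingNorm f : ℝ) ≤ δ * Fintype.card A := by
  classical
  obtain ⟨m₀, hm₀⟩ := core n₁ ρ δ hρ hδ
  obtain ⟨s, hs⟩ := exists_pow_lt_of_lt_one hρ (by norm_num : (1 / 2 : ℝ) < 1)
  obtain ⟨u, hu⟩ := exists_pow_lt_of_lt_one hδ (by norm_num : (1 / 2 : ℝ) < 1)
  refine ⟨2 ^ ((s + u) * m₀), ?_⟩
  intro A _ _ k m hm hA hmn hK C hC hdim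
  have hfact : Fact (Nat.Prime 2) := ⟨Nat.prime_two⟩
  -- the two parts
  have : Fintype (ker A m) := Fintype.ofFinite _
  have : Fintype (ker A (2 ^ k)) := Fintype.ofFinite _
  let μ : ker A (2 ^ k) × ker A m →* A := (ker A (2 ^ k)).subtype.coprod (ker A m).subtype
  have hμ : Function.Bijective μ := by
    constructor
    · rw [injective_iff_map_eq_one]
      rintro ⟨p, q⟩ h
      have h1 : (p : A) * q = 1 := h
      have h2 : (q : A) = (p : A)⁻¹ := by rw [eq_inv_iff_mul_eq_one, mul_comm]; exact h1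
      have h3 : (q : A) = 1 := by
        apply split_disj (s := k) hm q.2
        rw [h2]
        exact (ker A (2 ^ k)).inv_mem p.2
      have h4 : (p : A) = 1 := by rw [h3, mul_one] at h1; exact h1
      rw [Prod.mk_eq_one]
      exact ⟨Subtype.ext h4, Subtype.ext h3⟩
    · intro x
      obtain ⟨g, v, h⟩ := split_surj hm hA x
      refine ⟨(v, g), ?_⟩
      show (v : A) * g = x
      rw [mul_comm]
      exact h
  let E : ker A (2 ^ k) × ker A m ≃* A := MulEquiv.ofBijective μ hμ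
  have hcardE : Fintype.card (ker A (2 ^ k)) * Fintype.card (ker A m) = 2 ^ k * m := by
    rw [← Fintype.card_prod, Fintype.card_congr E.toEquiv, hA]
  have hP : IsPGroup 2 (ker A (2 ^ k)) := by
    intro g
    refine ⟨k, Subtype.ext ?_⟩
    exact mem_ker.1 g.2
  have hQodd : Odd (Fintype.card (ker A m)) := odd_card hm
  obtain ⟨a, ha⟩ := (IsPGroup.iff_card).1 hP
  have hPbig : 2 ^ k ≤ Nat.card (ker A (2 ^ k)) := by
    rw [ha]
    apply Nat.le_of_dvd (by positivity)
    have h1 : 2 ^ k ∣ 2 ^ a * Fintype.card (ker A m) := by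
      rw [← ha, Nat.card_eq_fintype_card, hcardE]
      exact dvd_mul_right _ _
    exact (Nat.Coprime.pow_left k hQodd.coprime_two_left).dvd_of_dvd_mul_right h1
  have hQm : Fintype.card (ker A m) ≤ m := by
    rw [Nat.card_eq_fintype_card] at hPbig
    have h1 : 2 ^ k * Fintype.card (ker A m) ≤ 2 ^ k * m := by
      rw [← hcardE]
      exact Nat.mul_le_mul_right _ hPbig
    exact Nat.le_of_mul_le_mul_left h1 (by positivity)
  -- quotients of `A`
  have hquot : ∀ (Z : Type) [CommGroup Z] (ψ : ker A (2 ^ k) →* Z), Function.Surjective ψ →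
      ∃ pr : A →* Z × ker A m, Function.Surjective pr ∧ IsPGroup 2 pr.ker := by
    intro Z _ ψ hψ
    refine ⟨(ψ.prodMap (MonoidHom.id (ker A m))).comp E.symm.toMonoidHom, ?_, ?_⟩
    · rintro ⟨z, q⟩
      obtain ⟨p, hp⟩ := hψ z
      refine ⟨E (p, q), ?_⟩
      show (ψ (E.symm (E (p, q))).1, (E.symm (E (p, q))).2) = (z, q)
      rw [E.symm_apply_apply, hp]
    · rintro ⟨g, hg⟩
      refine ⟨k, Subtype.ext ?_⟩
      rw [MonoidHom.mem_ker] at hg
      have h1 : (E.symm g).2 = 1 := congrArg Prod.snd hg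
      have h2 : g = ((E.symm g).1 : A) := by
        conv_lhs => rw [← E.apply_symm_apply g]
        show ((E.symm g).1 : A) * ((E.symm g).2 : A) = _
        rw [h1]
        exact mul_one _
      show g ^ 2 ^ k = 1
      rw [h2]
      exact mem_ker.1 (E.symm g).1.2
  rcases two_struct m₀ (s + u) hP (lt_of_lt_of_le hK hPbig) with ⟨ψ, hψ⟩ | ⟨e, he, ψ, hψ⟩
  · obtain ⟨pr, hpr, hker⟩ := hquot _ ψ hψ
    refine quot pr hpr hker ρ δ ?_ C hC hdim
    intro C' hC' hdim'
    rw [Fintype.card_prod] at hdim' ⊢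
    push_cast at hdim' ⊢
    refine hm₀ (Multiplicative (Fin m₀ → ZMod 2)) (ker A m) ?_ (hQm.trans hmn) m₀
      (MonoidHom.id _) le_rfl Function.surjective_id C' ?_ hdim'
    · intro g
      refine ⟨1, ?_⟩
      rw [pow_one, pow_two]
      apply Multiplicative.toAdd.injective
      funext i
      exact CharTwo.add_self_eq_zero _
    · intro h f hf
      have h1 := hC' (h, 1) f hf
      have h2 : (fun q : Multiplicative (Fin m₀ → ZMod 2) × ker A m => f (h * q.1, q.2)) =
          fun x => f ((h, 1) * x) := by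
        funext q
        show f (h * q.1, q.2) = f (h * q.1, 1 * q.2)
        rw [one_mul]
      rw [h2]
      exact h1
  · obtain ⟨pr, hpr, hker⟩ := hquot _ ψ hψ
    refine quot pr hpr hker ρ δ ?_ C hC hdim
    intro C' hC' hdim'
    have hcardB : Fintype.card (Multiplicative (ZMod (2 ^ e)) × ker A m) =
        2 ^ e * Fintype.card (ker A m) := by
      rw [Fintype.card_prod, Fintype.card_multiplicative, ZMod.card]
    have hQ0 : (0 : ℝ) < Fintype.card (ker A m) := by exact_mod_cast Fintype.card_pos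
    rw [hcardB] at hdim' ⊢
    push_cast at hdim' ⊢
    have hte : e - s ≤ e := Nat.sub_le _ _
    have hpow : (2 : ℝ) ^ e = 2 ^ (e - s) * 2 ^ s := by
      rw [← pow_add]
      congr 1
      omega
    have hlt : (2 : ℝ) ^ (e - s) < ρ * 2 ^ e := by
      have h1 : (1 / 2 : ℝ) ^ s * 2 ^ s = 1 := by rw [← mul_pow]; norm_num
      calc (2 : ℝ) ^ (e - s) = (1 / 2 : ℝ) ^ s * (2 ^ (e - s) * 2 ^ s) := by
            rw [mul_left_comm, h1, mul_one]
        _ = (1 / 2 : ℝ) ^ s * 2 ^ e := by rw [hpow]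
        _ < ρ * 2 ^ e := mul_lt_mul_of_pos_right hs (by positivity)
    obtain ⟨f, hf, hf0, hw⟩ := cyc e (e - s) hte hQodd C' hC' (by
      have h1 : ((2 ^ (e - s) * Fintype.card (ker A m) : ℕ) : ℝ) < finrank (ZMod 2) C' := by
        push_cast
        calc (2 : ℝ) ^ (e - s) * Fintype.card (ker A m)
            < (ρ * 2 ^ e) * Fintype.card (ker A m) := mul_lt_mul_of_pos_right hlt hQ0
          _ = ρ * (2 ^ e * Fintype.card (ker A m)) := by ring
          _ ≤ _ := hdim'
      exact_mod_cast h1)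
    refine ⟨f, hf, hf0, ?_⟩
    have hw' : (hammingNorm f : ℝ) * 2 ^ (e - s) ≤ 2 ^ e * Fintype.card (ker A m) := by
      exact_mod_cast hw
    have h1 : (1 / 2 : ℝ) ^ (e - s) ≤ δ := by
      calc (1 / 2 : ℝ) ^ (e - s) ≤ (1 / 2 : ℝ) ^ u :=
            pow_le_pow_of_le_one (by norm_num) (by norm_num) (by omega)
        _ ≤ δ := hu.le
    have h2 : (hammingNorm f : ℝ) = (hammingNorm f * 2 ^ (e - s)) * (1 / 2 : ℝ) ^ (e - s) := by
      rw [mul_assoc, ← mul_pow]
      norm_num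
    rw [h2]
    calc (hammingNorm f * 2 ^ (e - s) : ℝ) * (1 / 2 : ℝ) ^ (e - s)
        ≤ (2 ^ e * Fintype.card (ker A m)) * (1 / 2 : ℝ) ^ (e - s) :=
          mul_le_mul_of_nonneg_right hw' (by positivity)
      _ ≤ (2 ^ e * Fintype.card (ker A m)) * δ := mul_le_mul_of_nonneg_left h1 (by positivity)
      _ = δ * (2 ^ e * Fintype.card (ker A m)) := mul_comm _ _

/-- Abelian codes of smooth length are asymptotically bad. -/
theorem smooth_all (y : ℕ) (ρ δ : ℝ) (hρ : 0 < ρ) (hδ : 0 < δ) :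
    ∃ n₀ : ℕ, ∀ (A : Type) [CommGroup A] [Fintype A],
      (∀ p : ℕ, p.Prime → p ∣ Fintype.card A → p ≤ y) →
      n₀ ≤ Fintype.card A →
      ∀ C : Submodule (ZMod 2) (A → ZMod 2), (∀ a : A, ∀ f ∈ C, (fun x => f (a * x)) ∈ C) →
        ρ * Fintype.card A ≤ finrank (ZMod 2) C →
        ∃ f ∈ C, f ≠ 0 ∧ (hammingNorm f : ℝ) ≤ δ * Fintype.card A := by
  obtain ⟨n₁, h₁⟩ := smooth y ρ δ hρ hδ
  obtain ⟨K, h₂⟩ := two_part n₁ ρ δ hρ hδ
  refine ⟨(K + 1) * n₁ + 1, ?_⟩
  intro A _ _ hy hn C hC hdim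
  obtain ⟨k, m, hm, hA⟩ := Nat.exists_eq_two_pow_mul_odd (n := Fintype.card A) Fintype.card_ne_zero
  by_cases hmn : n₁ ≤ m
  · refine h₁ A hy ?_ C hC hdim
    intro k' m' hm' hA'
    have h1 : ∀ k m : ℕ, Odd m → Fintype.card A = 2 ^ k * m → ordCompl[2] (Fintype.card A) = m := by
      intro k m hm hA
      rw [hA, Nat.ordCompl_self_pow_mul _ _ Nat.prime_two]
      refine (Nat.ordCompl_eq_self_iff_zero_or_not_dvd m Nat.prime_two).2 (Or.inr ?_)
      intro h2
      exact (Nat.not_even_iff_odd.2 hm) (even_iff_two_dvd.2 h2)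
    rw [← h1 k' m' hm' hA', h1 k m hm hA]
    exact hmn
  · push Not at hmn
    refine h₂ A k m hm hA hmn.le ?_ C hC hdim
    by_contra hcon
    push Not at hcon
    have h3 : Fintype.card A ≤ K * n₁ := by
      rw [hA]
      exact Nat.mul_le_mul hcon hmn.le
    have h4 : K * n₁ ≤ (K + 1) * n₁ := Nat.mul_le_mul_right _ (Nat.le_succ _)
    omega

end Pool.Agent.Helper243Two
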